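import Pool.Agent.MP_c853c5_nt.DU.Defs
import Pool.Agent.MP_c853c5_nt.DS.Pois
import Pool.Agent.MP_c853c5_nt.DS.Conv

set_option autoImplicit false

open Finset Filter Real MeasureTheory

namespace Pool.Agent.MP_c853c5_nt.DU

lemma half_AmU {A : ℝ} (hA : 0 < A) (c : ℝ) (R : Finset ℕ) (g : ℕ → ℕ) (hg : Set.InjOn g R)
    (h : ∀ p ∈ R, (g p : ℝ) ≤ |(p : ℝ) - c|) :
    ∑ p ∈ R, Real.exp (-(π * ((p : ℝ) - c) ^ 2 / A)) ≤ 1 + 2 * √A := by
  have hs : Summable fun j : ℕ => Real.exp (-(π * (j : ℝ) ^ 2 / A)) := by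
    have := (DS.summ0_Pois hA).comp_injective (Nat.cast_injective (R := ℤ))
    simpa [Function.comp_def] using this
  refine le_trans ?_ (DS.gtsum_Pois hA)
  refine le_trans ?_ (hs.sum_le_tsum (R.image g) fun _ _ => (Real.exp_pos _).le)
  rw [sum_image hg]
  refine sum_le_sum fun p hp => Real.exp_le_exp.2 (neg_le_neg ?_)
  have h1 : (g p : ℝ) ^ 2 ≤ ((p : ℝ) - c) ^ 2 := by
    rw [← sq_abs ((p : ℝ) - c)]
    exact pow_le_pow_left₀ (Nat.cast_nonneg _) (h p hp) 2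
  have := pi_pos
  gcongr

lemma isum_AmU {A : ℝ} (hA : 0 < A) {c : ℝ} (hc : 0 ≤ c) (R : Finset ℕ) :
    ∑ p ∈ R, Real.exp (-(π * ((p : ℝ) - c) ^ 2 / A)) ≤ 2 + 4 * √A := by
  rw [← sum_filter_add_sum_filter_not R fun p => ⌈c⌉₊ ≤ p]
  have h1 := half_AmU hA c (R.filter fun p => ⌈c⌉₊ ≤ p) (fun p => p - ⌈c⌉₊)
    (fun p hp q hq e => by
      have a := (mem_filter.1 hp).2
      have b := (mem_filter.1 hq).2
      exact (Nat.sub_add_cancel a).symm.trans ((congrArg (· + ⌈c⌉₊) e).trans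
        (Nat.sub_add_cancel b)))
    fun p hp => by
      rw [Nat.cast_sub (mem_filter.1 hp).2]
      exact le_trans (sub_le_sub_left (Nat.le_ceil c) _) (le_abs_self _)
  have h2 := half_AmU hA c (R.filter fun p => ¬⌈c⌉₊ ≤ p) (fun p => ⌈c⌉₊ - (p + 1))
    (fun p hp q hq e => by
      have a := not_le.1 (mem_filter.1 hp).2
      have b := not_le.1 (mem_filter.1 hq).2
      exact Nat.succ_injective (tsub_right_inj a b |>.1 e))
    fun p hp => by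
      rw [Nat.cast_sub (not_le.1 (mem_filter.1 hp).2), abs_sub_comm]
      refine le_trans ?_ (le_abs_self _)
      push_cast
      linarith [Nat.ceil_lt_add_one hc]
  linarith

lemma tail_AmU {Δ : ℝ} (h : 0 < Δ) : Real.exp (-(π * (1 / 4) / Δ ^ 2)) ≤ 4 * Δ ^ 4 := by
  have h0 : 0 < π * (1 / 4) / Δ ^ 2 := by have := pi_pos; positivity
  have h1 := Real.pow_div_factorial_le_exp _ h0.le 2
  rw [Real.exp_neg, inv_le_comm₀ (Real.exp_pos _) (by positivity)]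
  refine le_trans ?_ h1
  have h2 : (π * (1 / 4) / Δ ^ 2) ^ 2 / (Nat.factorial 2 : ℕ) = π ^ 2 / 8 * (4 * Δ ^ 4)⁻¹ := by
    rw [Nat.factorial_two]
    push_cast
    field_simp
    ring
  rw [h2]
  refine le_mul_of_one_le_left (by positivity) ?_
  nlinarith [pi_gt_three]

/-- the sum of the Gaussians -/
noncomputable def sm_AmU (Δ : ℝ) (R : Finset ℕ) (y : ℝ) (a : ℕ) : ℝ :=
  ∑ p ∈ R, Real.exp (-(π * (y * p / a - 1) ^ 2 / Δ ^ 2))

variable {Δ : ℝ} {K P Λ a : ℕ}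

lemma far_AmU (hΔ : 0 < Δ) (hP : 1 ≤ P) (hs : Λ * P * Δ ^ 4 ≤ 1) {y t : ℝ}
    (h : ∀ p ∈ Icc P (Λ * P), t + 1 / 4 / Δ ^ 2 ≤ (y * p / a - 1) ^ 2 / Δ ^ 2) :
    sm_AmU Δ (Icc P (Λ * P)) y a ≤ 4 * Real.exp (-(π * t)) := by
  have h1 : ∀ p ∈ Icc P (Λ * P), Real.exp (-(π * (y * p / a - 1) ^ 2 / Δ ^ 2)) ≤
      4 * Δ ^ 4 * Real.exp (-(π * t)) := fun p hp => by
    refine le_trans ?_ (mul_le_mul_of_nonneg_right (tail_AmU hΔ) (Real.exp_pos _).le)
    rw [← Real.exp_add, Real.exp_le_exp, mul_div_assoc π, mul_div_assoc π]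
    nlinarith [mul_le_mul_of_nonneg_left (h p hp) pi_pos.le]
  refine (sum_le_card_nsmul _ _ _ h1).trans ?_
  have h2 : ((Icc P (Λ * P)).card : ℝ) ≤ Λ * P := by exact_mod_cast DS.card_Icc_le hP
  rw [nsmul_eq_mul, ← mul_assoc]
  refine mul_le_mul_of_nonneg_right ?_ (Real.exp_pos _).le
  nlinarith [mul_le_mul_of_nonneg_right h2 (pow_pos hΔ 4).le]

lemma sup_AmU (hΔ : 0 < Δ) (hP : 1 ≤ P) (hΛ : 1 ≤ Λ) (ha : 1 ≤ a) (hs : Λ * P * Δ ^ 4 ≤ 1)
    (y : ℝ) : sm_AmU Δ (Icc P (Λ * P)) y a ≤ 8 * Λ * (1 + P * Δ) := by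
  have ha0 : (0 : ℝ) < a := by exact_mod_cast ha
  have hP1 : (1 : ℝ) ≤ P := by exact_mod_cast hP
  have hΛ1 : (1 : ℝ) ≤ Λ := by exact_mod_cast hΛ
  have hPΔ : 0 < P * Δ := by positivity
  rcases lt_or_ge (y * (Λ * P)) (a / 2) with h | h
  · have := far_AmU (a := a) (y := y) (t := 0) hΔ hP hs fun p hp => by
      have h1 : (p : ℝ) ≤ Λ * P := by exact_mod_cast (mem_Icc.1 hp).2
      have h2 : y * p / a ≤ 1 / 2 := by
        rw [div_le_iff₀ ha0]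
        rcases le_total 0 y with hy | hy
        · linarith [mul_le_mul_of_nonneg_left h1 hy]
        · linarith [mul_nonpos_of_nonpos_of_nonneg hy (Nat.cast_nonneg (α := ℝ) p)]
      rw [zero_add]
      gcongr
      nlinarith
    rw [mul_zero, neg_zero, Real.exp_zero] at this
    nlinarith
  · have hy : 0 < y :=
      (mul_pos_iff_of_pos_right (by positivity : (0 : ℝ) < Λ * P)).1 (by linarith)
    have h1 := isum_AmU (A := (a * Δ / y) ^ 2) (by positivity) (c := a / y) (by positivity)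
      (Icc P (Λ * P))
    rw [Real.sqrt_sq (by positivity)] at h1
    have h2 : a * Δ / y ≤ 2 * (Λ * P) * Δ := by
      rw [div_le_iff₀ hy]
      nlinarith
    refine le_trans (le_of_eq (sum_congr rfl fun p _ => ?_)) (h1.trans (by nlinarith))
    congr 2
    field_simp

lemma gau_AmU (hΔ : 0 < Δ) (hΔ2 : Δ ≤ 1 / 2) (hK : 1 ≤ K) (hP : 1 ≤ P) (hΛ : 1 ≤ Λ) (h1 : K ≤ a)
    (h2 : a < 2 * K) (hs : Λ * P * Δ ^ 4 ≤ 1) (y : ℝ) :
    sm_AmU Δ (Icc P (Λ * P)) y a ≤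
      8 * Real.exp π * Λ * (1 + P * Δ) * Real.exp (-(π * y ^ 2 / (4 * K / P) ^ 2)) := by
  have ha0 : (0 : ℝ) < a := by exact_mod_cast hK.trans h1
  have hK0 : (0 : ℝ) < K := by exact_mod_cast hK
  have hP0 : (0 : ℝ) < P := by exact_mod_cast hP
  have hΛ1 : (1 : ℝ) ≤ Λ := by exact_mod_cast hΛ
  have ha2 : (a : ℝ) ≤ 2 * K := by exact_mod_cast h2.le
  have e : y ^ 2 / (4 * K / P) ^ 2 = (|y| * P / (4 * K)) ^ 2 := by
    rw [div_pow (|y| * P), mul_pow, sq_abs]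
    field_simp
  rw [mul_div_assoc, e]
  have hz0 : 0 ≤ |y| * P / (4 * K) := by positivity
  have hz1 : ∀ p ∈ Icc P (Λ * P), 2 * (|y| * P / (4 * K)) - 1 ≤ |y * p / a - 1| := fun p hp => by
    have a1 : (P : ℝ) ≤ p := by exact_mod_cast (mem_Icc.1 hp).1
    have a2 := abs_sub_abs_le_abs_sub (y * p / a) 1
    rw [abs_one, abs_div, abs_mul, Nat.abs_cast, Nat.abs_cast] at a2
    have a3 : |y| * P / (2 * K) ≤ |y| * p / a := by gcongr
    have a4 : 2 * (|y| * P / (4 * K)) = |y| * P / (2 * K) := by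
      field_simp
      ring
    linarith
  generalize |y| * P / (4 * K) = z at hz0 hz1
  have hE : 1 ≤ Real.exp π := Real.one_le_exp pi_pos.le
  have hPΔ : 0 < P * Δ := by positivity
  rcases le_total z 1 with h | h
  · refine (sup_AmU hΔ hP hΛ (hK.trans h1) hs y).trans ?_
    have a1 : 1 ≤ Real.exp π * Real.exp (-(π * z ^ 2)) := by
      rw [← Real.exp_add]
      refine Real.one_le_exp ?_
      nlinarith [pi_pos, pow_le_one₀ (n := 2) hz0 h]
    have a2 : 0 ≤ 8 * (Λ : ℝ) * (1 + P * Δ) := by positivity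
    nlinarith
  · refine (far_AmU (t := z ^ 2) hΔ hP hs fun p hp => ?_).trans ?_
    · have a1 : z ^ 2 ≤ (y * p / a - 1) ^ 2 := by
        rw [← sq_abs (y * p / a - 1)]
        exact pow_le_pow_left₀ hz0 (by linarith [hz1 p hp]) 2
      have a2 : Δ ^ 2 ≤ 1 / 4 := by nlinarith
      have a3 : 1 ≤ z ^ 2 := one_le_pow₀ h
      have a4 : 0 < Δ ^ 2 := by positivity
      rw [add_div' _ _ _ a4.ne']
      refine div_le_div_of_nonneg_right ?_ a4.le
      nlinarith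
    · refine mul_le_mul_of_nonneg_right ?_ (Real.exp_pos _).le
      have a1 : 1 ≤ Real.exp π * Λ := one_le_mul_of_one_le_of_one_le hE hΛ1
      nlinarith

lemma abs_AmU (hΔ : 0 < Δ) (R : Finset ℕ) {α : ℕ × ℕ → ℝ} (hα : ∀ u, |α u| ≤ 1) (y : ℝ) :
    |Am Δ R α y a| ≤ (a : ℝ)⁻¹ * ∑ p ∈ R, Z.gg Δ (y * p / a - 1) := by
  rw [Am, abs_mul, abs_inv, Nat.abs_cast]
  refine mul_le_mul_of_nonneg_left ((abs_sum_le_sum_abs _ _).trans (sum_le_sum fun p _ => ?_))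
    (by positivity)
  rw [abs_mul, abs_of_nonneg (DS.gg_nonneg_Conv hΔ _)]
  exact mul_le_of_le_one_left (DS.gg_nonneg_Conv hΔ _) (hα _)

lemma abs2_AmU (hΔ : 0 < Δ) (hK : 1 ≤ K) (h1 : K ≤ a) (R : Finset ℕ) {α : ℕ × ℕ → ℝ}
    (hα : ∀ u, |α u| ≤ 1) (y : ℝ) : |Am Δ R α y a| ≤ sm_AmU Δ R y a / (K * Δ) := by
  have hK0 : (0 : ℝ) < K := by exact_mod_cast hK
  have hKa : (K : ℝ) ≤ a := by exact_mod_cast h1
  refine (abs_AmU hΔ R hα y).trans ?_
  simp only [Z.gg, ← mul_sum]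
  rw [← mul_assoc, ← mul_inv, inv_mul_eq_div, sm_AmU]
  gcongr

lemma int_AmU (hΔ : 0 < Δ) (ha : 1 ≤ a) {p : ℕ} (hp : 1 ≤ p) :
    (Integrable fun y : ℝ => Z.gg Δ (y * p / a - 1)) ∧ ∫ y : ℝ, Z.gg Δ (y * p / a - 1) = a / p := by
  have ha0 : (0 : ℝ) < a := by exact_mod_cast ha
  have hp0 : (0 : ℝ) < p := by exact_mod_cast hp
  simp only [mul_div_assoc]
  refine ⟨((DS.gg_int_Conv hΔ).1.comp_sub_right 1).comp_mul_right' (by positivity), ?_⟩
  rw [Measure.integral_comp_mul_right (fun x => Z.gg Δ (x - 1)), integral_sub_right_eq_self,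
    (DS.gg_int_Conv hΔ).2, inv_div, abs_of_pos (by positivity), smul_eq_mul, mul_one]

theorem am_stmt : AmStmt := by
  refine ⟨8 * Real.exp π, by positivity, fun Δ K P Λ a α hΔ hΔ2 hK hP hΛ h1 h2 hs hα => ?_⟩
  have ha := hK.trans h1
  have ha0 : (0 : ℝ) < a := by exact_mod_cast ha
  have hK0 : (0 : ℝ) < K := by exact_mod_cast hK
  have hP0 : (0 : ℝ) < P := by exact_mod_cast hP
  have hi := fun p (hp : p ∈ Icc P (Λ * P)) => int_AmU hΔ ha (hP.trans (mem_Icc.1 hp).1)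
  have hI : Integrable fun y : ℝ => 8 * Λ * (1 + P * Δ) / (K * Δ) *
      ((a : ℝ)⁻¹ * ∑ p ∈ Icc P (Λ * P), Z.gg Δ (y * p / a - 1)) :=
    ((integrable_finsetSum _ fun p hp => (hi p hp).1).const_mul _).const_mul _
  have hb : ∀ y, Am Δ (Icc P (Λ * P)) α y a ^ 2 ≤ 8 * Λ * (1 + P * Δ) / (K * Δ) *
      ((a : ℝ)⁻¹ * ∑ p ∈ Icc P (Λ * P), Z.gg Δ (y * p / a - 1)) := fun y => by
    rw [← sq_abs, sq]
    refine mul_le_mul ((abs2_AmU hΔ hK h1 _ hα y).trans ?_) (abs_AmU hΔ _ hα y) (abs_nonneg _)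
      (by positivity)
    exact div_le_div_of_nonneg_right (sup_AmU hΔ hP hΛ ha hs y) (by positivity)
  have hc : Continuous fun y => Am Δ (Icc P (Λ * P)) α y a ^ 2 := by
    unfold Am Z.gg
    fun_prop
  have hJ : Integrable fun y => Am Δ (Icc P (Λ * P)) α y a ^ 2 :=
    hI.mono' hc.aestronglyMeasurable (Eventually.of_forall fun y => by
      rw [Real.norm_of_nonneg (sq_nonneg _)]
      exact hb y)
  refine ⟨fun y => (abs2_AmU hΔ hK h1 _ hα y).trans ?_, hJ, (integral_mono hJ hI hb).trans ?_⟩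
  · rw [div_mul_eq_mul_div]
    exact div_le_div_of_nonneg_right (gau_AmU hΔ hΔ2 hK hP hΛ h1 h2 hs y) (by positivity)
  · rw [integral_const_mul, integral_const_mul, integral_finsetSum _ fun p hp => (hi p hp).1]
    have a1 : ∑ p ∈ Icc P (Λ * P), ∫ y : ℝ, Z.gg Δ (y * p / a - 1) ≤ a * Λ := by
      refine (sum_le_card_nsmul _ _ (a / P : ℝ) fun p hp => ?_).trans ?_
      · have : (P : ℝ) ≤ p := by exact_mod_cast (mem_Icc.1 hp).1
        rw [(hi p hp).2]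
        gcongr
      · have : ((Icc P (Λ * P)).card : ℝ) ≤ Λ * P := by exact_mod_cast DS.card_Icc_le hP
        rw [nsmul_eq_mul, ← mul_div_assoc, div_le_iff₀ hP0]
        nlinarith
    have a2 : (a : ℝ)⁻¹ * ∑ p ∈ Icc P (Λ * P), ∫ y : ℝ, Z.gg Δ (y * p / a - 1) ≤ Λ :=
      (inv_mul_le_iff₀ ha0).2 a1
    refine (mul_le_mul_of_nonneg_left a2 (by positivity)).trans ?_
    rw [div_mul_eq_mul_div]
    refine div_le_div_of_nonneg_right ?_ (by positivity)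
    have a3 : 1 ≤ Real.exp π := Real.one_le_exp pi_pos.le
    have a4 : 0 ≤ 8 * (Λ : ℝ) ^ 2 * (1 + P * Δ) := by positivity
    nlinarith

end Pool.Agent.MP_c853c5_nt.DU
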