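import Pool.Agent.MP_c853c5_nt.DU.Defs
import Pool.Agent.MP_c853c5_nt.DS.Basic

set_option autoImplicit false

open Finset Filter Real MeasureTheory

namespace Pool.Agent.MP_c853c5_nt.DU

theorem symm_FormU (X : ℝ) (B : ℕ) (y : ℝ) (a b : ℕ) : Gm X B y a b = Gm X B y b a := by
  unfold Gm
  by_cases h : a = b
  · rw [if_pos h, if_pos h.symm]
  · rw [if_neg h, if_neg (Ne.symm h), mul_comm (a : ℝ)]

theorem form_stmt (hO : DU.OpStmt) (hT : TrStmt) (hA : AmStmt) (hR : RepStmt) : FormStmt := by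
  intro r hr
  obtain ⟨CT, hCT, hT⟩ := hT r hr
  obtain ⟨CA, hCA, hA⟩ := hA
  refine ⟨CA + 4 * CA ^ 2 * CT, by positivity, ?_⟩
  intro K P Λ B D X Δ w l α hD hB hX hΔ hΔ' hP hΛ hs hw hXK hlog hl hα
  have hK : 1 ≤ K := by omega
  have hK' : (0 : ℝ) < K := by exact_mod_cast hK
  have hP' : (0 : ℝ) < P := by exact_mod_cast hP
  have hw0 : 0 < w := by linarith
  have hc : (D.card : ℝ) ≤ K := by exact_mod_cast hD.card_le
  obtain ⟨t1, t2⟩ := hT K B D X (4 * K / P) w hD hB hX (by positivity) hw (by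
    have e : w * (X * (4 * K / P)) = 4 * (w * (X * K)) / P := by ring
    rw [e, le_div_iff₀ hP']
    have : 0 < w * (X * K) := by positivity
    linarith) hlog
  have hA' := fun a (ha : a ∈ D) =>
    hA Δ K P Λ a α hΔ hΔ' hK hP hΛ (hD a ha).2.1 (hD a ha).2.2 hs hα
  obtain ⟨r1, r2⟩ := hR X Δ B D (Icc P (Λ * P)) α hX hΔ (fun a ha => (hD a ha).1.pos)
    fun p hp => lt_of_lt_of_le hP (mem_Icc.1 hp).1
  set b : ℝ := CA * Λ * (1 + P * Δ) / (K * Δ) with hb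
  set L : ℝ := l ^ (2 * r - 1) with hL
  have hL0 : 0 < L := by positivity
  have i1 : Integrable fun y => ∑ a ∈ D, Am Δ (Icc P (Λ * P)) α y a ^ 2 :=
    integrable_finsetSum _ fun a ha => (hA' a ha).2.1
  have s1 : ∫ y, ∑ a ∈ D, Am Δ (Icc P (Λ * P)) α y a ^ 2 ≤ CA * Λ ^ 2 * (1 + P * Δ) / Δ := by
    rw [integral_finsetSum _ fun a ha => (hA' a ha).2.1]
    refine (sum_le_card_nsmul _ _ _ fun a ha => (hA' a ha).2.2).trans ?_
    rw [nsmul_eq_mul]
    refine (mul_le_mul_of_nonneg_right hc (by positivity)).trans_eq ?_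
    field_simp
  have s2 : ∀ y, ∑ a ∈ D, Am Δ (Icc P (Λ * P)) α y a ^ 2 ≤
      K * b ^ 2 * Real.exp (-(π * y ^ 2 / (4 * K / P) ^ 2)) := by
    intro y
    have e1 : Real.exp (-(π * y ^ 2 / (4 * K / P) ^ 2)) ≤ 1 :=
      Real.exp_le_one_iff.2 (neg_nonpos.2 (by positivity))
    have e0 := Real.exp_pos (-(π * y ^ 2 / (4 * K / P) ^ 2))
    refine (sum_le_card_nsmul _ _ (b ^ 2 * Real.exp (-(π * y ^ 2 / (4 * K / P) ^ 2)))
      fun a ha => ?_).trans ?_
    · rw [← sq_abs]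
      refine (pow_le_pow_left₀ (abs_nonneg _) ((hA' a ha).1 y) 2).trans ?_
      rw [mul_pow]
      exact mul_le_mul_of_nonneg_left (by nlinarith) (sq_nonneg _)
    · rw [nsmul_eq_mul, mul_assoc]
      exact mul_le_mul_of_nonneg_right hc (by positivity)
  have key : |∫ y, ∑ a ∈ D, ∑ b ∈ D, Am Δ (Icc P (Λ * P)) α y a * Am Δ (Icc P (Λ * P)) α y b *
      Gm X B y a b| ≤ l * (CA * Λ ^ 2 * (1 + P * Δ) / Δ) +
        K * b ^ 2 / L * (CT * w ^ 2 * (4 * K / P) * (K ^ (r + 1) * B ^ r)) := by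
    rw [← Real.norm_eq_abs]
    refine (norm_integral_le_of_norm_le ((i1.const_mul l).add (t1.const_mul (K * b ^ 2 / L)))
      (.of_forall fun y => ?_)).trans ?_
    · rw [Real.norm_eq_abs]
      refine (hO D (Gm X B y) (Am Δ (Icc P (Λ * P)) α y) r l hr hl (symm_FormU X B y)).trans ?_
      have h0 : 0 ≤ (∑ a ∈ D, ∑ k ∈ D, DS.mp D (Gm X B y) r a k ^ 2) / L := by positivity
      have h1 := mul_le_mul_of_nonneg_right (s2 y) h0
      rw [mul_add, Pi.add_apply, mul_comm _ l]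
      refine add_le_add le_rfl (h1.trans_eq ?_)
      ring
    · simp only [Pi.add_apply]
      rw [integral_add (i1.const_mul l) (t1.const_mul (K * b ^ 2 / L)), integral_const_mul,
        integral_const_mul]
      exact add_le_add (mul_le_mul_of_nonneg_left s1 hl.le)
        (mul_le_mul_of_nonneg_left t2 (by positivity))
  rw [r2, abs_mul, abs_of_pos hX]
  refine (mul_le_mul_of_nonneg_left key hX.le).trans ?_
  have e : X * (l * (CA * Λ ^ 2 * (1 + P * Δ) / Δ) +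
      K * b ^ 2 / L * (CT * w ^ 2 * (4 * K / P) * (K ^ (r + 1) * B ^ r))) =
      CA * (Λ ^ 2 * X * (l * (1 + P * Δ) / Δ)) + 4 * CA ^ 2 * CT * (Λ ^ 2 * X *
        (w ^ 2 * (1 + P * Δ) ^ 2 * (K ^ (r + 1) * B ^ r) / (P * Δ ^ 2 * L))) := by
    rw [hb]
    field_simp
  rw [e]
  have p1 : 0 ≤ (Λ : ℝ) ^ 2 * X * (l * (1 + P * Δ) / Δ) := by positivity
  have p2 : 0 ≤ (Λ : ℝ) ^ 2 * X *
      (w ^ 2 * (1 + P * Δ) ^ 2 * (K ^ (r + 1) * B ^ r) / (P * Δ ^ 2 * L)) := by positivity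
  have p3 : 0 ≤ 4 * CA ^ 2 * CT := by positivity
  nlinarith [mul_nonneg hCA.le p2, mul_nonneg p3 p1]

end Pool.Agent.MP_c853c5_nt.DU
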