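import Pool.Agent.MP_c853c5_nt.DU.Defs
import Pool.Agent.MP_c853c5_nt.DS.Basic

set_option autoImplicit false

open Finset Filter Real MeasureTheory

namespace Pool.Agent.MP_c853c5_nt.DU

lemma gauss_IntU {A : ℝ} (hA : 0 < A) (c ξ : ℝ) :
    (Integrable fun y : ℝ => Real.exp (-(π * A * (y - c) ^ 2)) * Real.cos (2 * π * (ξ * y))) ∧
    ∫ y : ℝ, Real.exp (-(π * A * (y - c) ^ 2)) * Real.cos (2 * π * (ξ * y)) =
      (√A)⁻¹ * Real.exp (-(π * ξ ^ 2 / A)) * Real.cos (2 * π * (ξ * c)) := by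
  have hA' : (A : ℂ) ≠ 0 := by exact_mod_cast hA.ne'
  have hπ : (π : ℂ) ≠ 0 := by exact_mod_cast Real.pi_ne_zero
  have hb : (-(π * A) : ℂ).re < 0 := by
    have : 0 < π * A := by positivity
    simpa using this
  have h1 := integrable_cexp_quadratic' hb (2 * π * A * c + 2 * π * ξ * Complex.I)
    (-(π * A * c ^ 2))
  have h2 := integral_cexp_quadratic hb (2 * π * A * c + 2 * π * ξ * Complex.I)
    (-(π * A * c ^ 2))
  have h3 : ∀ y : ℝ, Real.exp (-(π * A * (y - c) ^ 2)) * Real.cos (2 * π * (ξ * y)) =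
      (Complex.exp (-(π * A) * (y : ℂ) ^ 2 + (2 * π * A * c + 2 * π * ξ * Complex.I) * y +
        -(π * A * c ^ 2))).re := fun y => by
    have e : (-(π * A) * (y : ℂ) ^ 2 + (2 * π * A * c + 2 * π * ξ * Complex.I) * y +
        -(π * A * c ^ 2)) = ((-(π * A * (y - c) ^ 2) : ℝ) : ℂ) +
          ((2 * π * (ξ * y) : ℝ) : ℂ) * Complex.I := by
      push_cast
      ring
    rw [e, Complex.exp_add, ← Complex.ofReal_exp, Complex.re_ofReal_mul,
      Complex.exp_ofReal_mul_I_re]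
  have h4 : (π / - -(π * A) : ℂ) ^ (1 / 2 : ℂ) = (((√A)⁻¹ : ℝ) : ℂ) := by
    have e : (π / - -(π * A) : ℂ) = ((A⁻¹ : ℝ) : ℂ) := by
      push_cast
      field_simp
    rw [e, ← Real.sqrt_inv, Real.sqrt_eq_rpow, Complex.ofReal_cpow (inv_pos.2 hA).le]
    norm_num
  have h5 : (-(π * A * c ^ 2) - (2 * π * A * c + 2 * π * ξ * Complex.I) ^ 2 / (4 * -(π * A)) : ℂ) =
      ((-(π * ξ ^ 2 / A) : ℝ) : ℂ) + ((2 * π * (ξ * c) : ℝ) : ℂ) * Complex.I := by
    push_cast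
    field_simp
    linear_combination (4 * (ξ : ℂ) ^ 2) * Complex.I_mul_I
  simp_rw [h3]
  refine ⟨h1.re, ?_⟩
  have h6 := integral_re h1
  simp only [RCLike.re_to_complex] at h6
  rw [h6, h2, h4, h5, Complex.exp_add, ← Complex.ofReal_exp, Complex.re_ofReal_mul,
    Complex.re_ofReal_mul, Complex.exp_ofReal_mul_I_re, mul_assoc (√A)⁻¹]

theorem int_stmt : IntStmt := by
  intro X Δ a b p q h hX hΔ ha hb hp hq
  have hd := DS.dd_pos (Δ := Δ) (a * q) hΔ (mul_pos hb hp)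
  set d := DS.dd Δ Δ (b * p) (a * q) with hdd
  set A := d / (a * b * Δ * Δ) ^ 2 with hAd
  have hA : 0 < A := by positivity
  set c := DS.ct X Δ Δ (b * p) (a * q) * (a * b) / X with hc
  set E := Real.exp (-(π * (b * p - a * q) ^ 2 / d)) with hE
  have hsA : √A = √d / (a * b * Δ * Δ) := by
    rw [hAd, Real.sqrt_div hd.le, Real.sqrt_sq (by positivity)]
  have hsd : 0 < √d := Real.sqrt_pos.2 hd
  have h1 : ∀ y : ℝ, Z.gg Δ (y * p / a - 1) * Z.gg Δ (y * q / b - 1) *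
      Real.cos (2 * π * (h * X * y / (a * b))) = (Δ * Δ)⁻¹ * E *
        (Real.exp (-(π * A * (y - c) ^ 2)) * Real.cos (2 * π * (h * X / (a * b) * y))) := by
    intro y
    rw [← mul_assoc, div_mul_eq_mul_div]
    congr 1
    unfold Z.gg
    rw [hE, mul_assoc ((Δ * Δ)⁻¹), ← Real.exp_add, mul_mul_mul_comm, ← Real.exp_add, mul_inv]
    congr 2
    rw [hAd, hc, DS.ct, ← hdd]
    field_simp
    rw [hdd, DS.dd]
    ring
  obtain ⟨h2, h3⟩ := gauss_IntU hA c (h * X / (a * b))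
  simp_rw [h1]
  refine ⟨h2.const_mul _, ?_⟩
  have e1 : π * (h * X / (a * b)) ^ 2 / A = π * (h : ℝ) ^ 2 * (X * Δ * Δ) ^ 2 / d := by
    rw [hAd]
    field_simp
  have e2 : h * X / (a * b) * c = h * DS.ct X Δ Δ (b * p) (a * q) := by
    rw [hc]
    field_simp
  rw [integral_const_mul, h3, e1, e2, hsA, DS.am, ← hdd, ← hE]
  field_simp

end Pool.Agent.MP_c853c5_nt.DU
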