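import Pool.Agent.MP_c853c5_nt.DU.Defs
import Pool.Agent.MP_c853c5_nt.DS.Small

/-!
The main term of the dispersion by the mean value.
-/

set_option autoImplicit false

open Finset Filter Real MeasureTheory

namespace Pool.Agent.MP_c853c5_nt.DU

open DS (Lm bb hh one_le_Lm le_Lm root_Small)

lemma key_LongU (m : ℕ) {K J L y : ℝ} (hK : 0 < K) (hJ : 0 < J) (hL : 0 ≤ L) (hy : 0 ≤ y)
    (h8 : L ^ (m + 1) * y ≤ K ^ m)
    (hE : L ^ (m + 1) * K ^ (m + 1 + 2) * y ≤ (K * J) ^ (2 * (m + 1) + 1)) :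
    (1 + J) ^ 2 * (K ^ (m + 1) * (L ^ (m + 1) * y)) ≤ 4 * J ^ 2 * (K * min J 1) ^ (2 * m + 1) := by
  rcases le_total J 1 with h | h
  · rw [min_eq_left h]
    have h1 : K ^ (m + 1) * (L ^ (m + 1) * y) ≤ J ^ 2 * (K * J) ^ (2 * m + 1) := by
      refine le_of_mul_le_mul_left ?_ (pow_pos hK 2)
      calc _ = L ^ (m + 1) * K ^ (m + 1 + 2) * y := by ring
        _ ≤ _ := hE
        _ = _ := by ring
    calc _ ≤ (1 + 1) ^ 2 * (J ^ 2 * (K * J) ^ (2 * m + 1)) := by gcongr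
      _ = _ := by ring
  · rw [min_eq_right h]
    calc _ ≤ (J + J) ^ 2 * (K ^ (m + 1) * K ^ m) := by gcongr
      _ = _ := by ring

lemma fin_LongU (m : ℕ) {C Λ X K P Δ w B L c y z : ℝ} (hC : 0 < C) (hX : 0 < X) (hK : 0 < K)
    (hP : 0 < P) (hΔ : 0 < Δ) (hB0 : 0 ≤ B) (hL : 0 ≤ L) (hc : 0 ≤ c) (hz : 0 < z)
    (h8 : L ^ (m + 1) * y ≤ K ^ m)
    (hE : L ^ (m + 1) * K ^ (m + 1 + 2) * y ≤ (K * P * Δ) ^ (2 * (m + 1) + 1)) (hB : B ≤ c * L)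
    (h1 : 8 * C * Λ ^ 2 ≤ z) (h2 : 16 * C * Λ ^ 2 * w ^ 2 * c ^ (m + 1) ≤ z)
    (h3 : z ^ (4 * (m + 1)) ≤ y) :
    C * Λ ^ 2 * X * (K * min (P * Δ) 1 / z ^ 2 * (1 + P * Δ) / Δ +
      w ^ 2 * (1 + P * Δ) ^ 2 * (K ^ (m + 1 + 1) * B ^ (m + 1)) /
        (P * Δ ^ 2 * (K * min (P * Δ) 1 / z ^ 2) ^ (2 * (m + 1) - 1))) ≤
      X * (K * P) * z⁻¹ / 2 := by
  have hJ : 0 < P * Δ := by positivity
  have hj : 0 < min (P * Δ) 1 := lt_min hJ one_pos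
  have k1 := key_LongU m hK hJ hL ((pow_pos hz _).le.trans h3) h8 (by rwa [← mul_assoc])
  have k2 : min (P * Δ) 1 * (1 + P * Δ) ≤ 2 * (P * Δ) := by
    nlinarith [min_le_left (P * Δ) 1, mul_le_mul_of_nonneg_right (min_le_right (P * Δ) 1) hJ.le]
  rw [show 2 * (m + 1) - 1 = 2 * m + 1 by omega]
  generalize min (P * Δ) 1 = j at *
  have t1 : C * Λ ^ 2 * X * (K * j / z ^ 2 * (1 + P * Δ) / Δ) ≤ X * (K * P) * z⁻¹ / 4 := by
    calc _ = C * Λ ^ 2 * (j * (1 + P * Δ)) * (X * K / (Δ * z ^ 2)) := by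
          field_simp
      _ ≤ C * Λ ^ 2 * (2 * (P * Δ)) * (X * K / (Δ * z ^ 2)) := by gcongr
      _ = 8 * C * Λ ^ 2 * (X * (K * P) / (4 * z ^ 2)) := by
          field_simp
          ring
      _ ≤ z * (X * (K * P) / (4 * z ^ 2)) := by gcongr
      _ = _ := by field_simp
  have t2 : C * Λ ^ 2 * X * (w ^ 2 * (1 + P * Δ) ^ 2 * (K ^ (m + 1 + 1) * B ^ (m + 1)) /
      (P * Δ ^ 2 * (K * j / z ^ 2) ^ (2 * m + 1))) ≤ X * (K * P) * z⁻¹ / 4 := by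
    obtain ⟨u, hu⟩ : ∃ u, u = X * K / (16 * P * Δ ^ 2 * (K * j) ^ (2 * m + 1) * z) := ⟨_, rfl⟩
    have hu0 : 0 ≤ u := by
      rw [hu]
      positivity
    calc _ ≤ C * Λ ^ 2 * X * (w ^ 2 * (1 + P * Δ) ^ 2 * (K ^ (m + 1 + 1) * (c * L) ^ (m + 1)) /
          (P * Δ ^ 2 * (K * j / z ^ 2) ^ (2 * m + 1))) := by gcongr
      _ = (1 + P * Δ) ^ 2 * (K ^ (m + 1) * (L ^ (m + 1) *
          (16 * C * Λ ^ 2 * w ^ 2 * c ^ (m + 1) * z ^ (4 * m + 3)))) * u := by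
          rw [hu, div_pow, mul_pow c]
          field_simp
          ring
      _ ≤ (1 + P * Δ) ^ 2 * (K ^ (m + 1) * (L ^ (m + 1) * y)) * u := by
          gcongr
          refine le_trans ?_ h3
          rw [show 4 * (m + 1) = 4 * m + 3 + 1 by ring, pow_succ' z (4 * m + 3)]
          gcongr
      _ ≤ 4 * (P * Δ) ^ 2 * (K * j) ^ (2 * m + 1) * u := mul_le_mul_of_nonneg_right k1 hu0
      _ = _ := by
          rw [hu]
          field_simp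
          ring
  rw [mul_add]
  linarith

lemma trunc_LongU {x Λ X N Δ B L c z e : ℝ} (hx : 0 < x) (hΛ : 0 < Λ) (hX : 0 < X) (hN : 0 < N)
    (hΔ : 0 < Δ) (hL : 0 ≤ L) (hz : 0 < z) (he0 : 0 ≤ e) (hB : B ≤ c * L) (hBx : B ≤ 2 * x)
    (hzx : z ≤ x) (hΔx : 1 ≤ Δ * x) (he : e ≤ (x ^ 4)⁻¹) (h1 : 16 * Λ ^ 2 ≤ x)
    (h2 : 16 * Λ * c ≤ z) (hM : L * z ^ 2 ≤ N * Δ) :
    2 * B * X / Δ * (Λ ^ 2 * N * e + 2 * Λ) ≤ X * N * z⁻¹ / 2 := by
  have t1 : 2 * B * X / Δ * (Λ ^ 2 * N * e) ≤ X * N * z⁻¹ / 4 := by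
    calc _ ≤ 2 * (2 * x) * X / Δ * (Λ ^ 2 * N * (x ^ 4)⁻¹) := by gcongr
      _ = 16 * Λ ^ 2 * 1 * z * (X * N * z⁻¹ / (4 * Δ * x ^ 3)) := by
          field_simp
          ring
      _ ≤ x * (Δ * x) * x * (X * N * z⁻¹ / (4 * Δ * x ^ 3)) := by gcongr
      _ = _ := by field_simp
  have t2 : 2 * B * X / Δ * (2 * Λ) ≤ X * N * z⁻¹ / 4 := by
    calc _ ≤ 2 * (c * L) * X / Δ * (2 * Λ) := by gcongr
      _ = 16 * Λ * c * (L * X / (4 * Δ)) := by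
          field_simp
          ring
      _ ≤ z * (L * X / (4 * Δ)) := by gcongr
      _ = L * z ^ 2 * (X / (4 * Δ * z)) := by field_simp
      _ ≤ N * Δ * (X / (4 * Δ * z)) := by gcongr
      _ = _ := by field_simp
  rw [mul_add]
  linarith

theorem long_stmt (hF : FormStmt) (hT : TruncStmt) : DU.LongStmt := by
  intro r Λ μ hr hΛ hμ
  obtain ⟨C, hC, hF⟩ := hF r (by omega)
  obtain ⟨m, rfl⟩ : ∃ m, r = m + 1 := ⟨r - 1, by omega⟩
  have hΛ' : (1 : ℝ) ≤ Λ := by exact_mod_cast hΛ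
  have hr0 : (0 : ℝ) < ((4 * (m + 1) : ℕ) : ℝ) := by positivity
  obtain ⟨ν, h0, n1, n2⟩ : ∃ ν : ℝ, 0 < ν ∧ ν * ((4 * (m + 1) : ℕ) : ℝ) ≤ μ ∧ ν ≤ 1 :=
    ⟨min (μ / ((4 * (m + 1) : ℕ) : ℝ)) 1, lt_min (by positivity) one_pos,
      (le_div_iff₀ hr0).1 (min_le_left _ _), min_le_right _ _⟩
  refine ⟨ν, h0, ?_⟩
  filter_upwards [eventually_ge_atTop (16 * (Λ : ℝ) ^ 2), E.ev_le_log 2,
    E.ev_const_le (8 * C * Λ ^ 2) h0, E.ev_log_le (48 * Λ ^ 2) 1 h0,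
    E.ev_log_le (16 * C * Λ ^ 2 * (4 ^ (m + 1) * 2) ^ 2 * (3 * Λ) ^ (m + 1)) (m + 3) h0,
    E.ev_log_le (2 * 4 ^ (2 * (m + 1) + 1) * (3 * Λ)) 1 (show (0 : ℝ) < 1 / 400 by norm_num),
    E.ev_const_le (2 * Λ) (show (0 : ℝ) < 1 / 3 by norm_num)]
    with x hx hl e1 e2 e3 e4 e5 X Δ K P D α G hE hD hα
  rw [pow_one] at e2 e4
  have hx5 : 5 ≤ x := by linarith [one_le_pow₀ (n := 2) hΛ']
  have hx0 : 0 < x := by linarith
  have hΔ : 0 < Δ := (Real.rpow_pos_of_pos hx0 _).trans_le G.d1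
  have hX : 0 < X := lt_of_lt_of_le (by linarith) G.x1
  have hK : (1 : ℝ) ≤ K := by exact_mod_cast G.k1
  have hP : (1 : ℝ) ≤ P := by exact_mod_cast G.p1
  have hL := one_le_Lm X Δ K P
  have hB : (bb x X Δ Λ K P : ℝ) ≤ 3 * Λ * Real.log x * Lm X Δ K P :=
    (Nat.floor_le (by positivity)).trans
      (mul_le_mul_of_nonneg_left (le_Lm X Δ K P) (by positivity))
  have hH : 3 * Λ * Real.log x * (K * P * Δ) ≤ (hh x Δ Λ K P : ℝ) := Nat.le_ceil _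
  generalize bb x X Δ Λ K P = B at *
  generalize hh x Δ Λ K P = H at *
  have hz1 : 1 ≤ x ^ ν := Real.one_le_rpow (by linarith) h0.le
  have hz2 : x ^ ν ≤ x :=
    (Real.rpow_le_rpow_of_exponent_le (by linarith) n2).trans (Real.rpow_one x).le
  have hz3 : (x ^ ν) ^ (4 * (m + 1)) ≤ x ^ μ := by
    rw [← Real.rpow_natCast, ← Real.rpow_mul hx0.le]
    exact Real.rpow_le_rpow_of_exponent_le (by linarith) n1
  have hNX : (K : ℝ) * P ≤ 2 * x :=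
    ((le_mul_of_one_le_left (by positivity) (one_le_pow₀ hK)).trans G.h3).trans G.x2
  have hKx : (K : ℝ) ≤ 2 * x := (le_mul_of_one_le_right (by positivity) hP).trans hNX
  have hPx : (P : ℝ) ≤ 2 * x := (le_mul_of_one_le_left (by positivity) hK).trans hNX
  have b1 : (4 : ℝ) ^ (2 * (m + 1) + 1) * B < K := by
    have a1 := mul_le_mul_of_nonneg_left hB (by positivity : (0 : ℝ) ≤ 4 ^ (2 * (m + 1) + 1))
    have a2 := (mul_le_mul_of_nonneg_left e4 (zero_le_one.trans hL)).trans G.h5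
    linarith
  have b2 : (B : ℝ) ≤ 2 * x := by
    have a1 : (B : ℝ) ≤ 4 ^ (2 * (m + 1) + 1) * B :=
      le_mul_of_one_le_left (by positivity) (one_le_pow₀ (by norm_num))
    linarith
  have b3 : Δ * x ^ (1 / 3 : ℝ) ≤ 1 := by
    refine (mul_le_mul_of_nonneg_right G.d2 (by positivity)).trans_eq ?_
    rw [← Real.rpow_add hx0]
    norm_num
  have b4 : Δ ^ 3 * x ≤ 1 := by
    have a1 := pow_le_one₀ (n := 3) (by positivity) b3
    rwa [mul_pow, ← Real.rpow_natCast (x ^ (1 / 3 : ℝ)), ← Real.rpow_mul hx0.le,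
      show (1 / 3 : ℝ) * (3 : ℕ) = 1 by norm_num, Real.rpow_one] at a1
  have b5 : 2 * Λ * Δ ≤ 1 := (mul_le_mul_of_nonneg_right e5 hΔ.le).trans (by rwa [mul_comm])
  have b6 : (Λ : ℝ) * P * Δ ^ 4 ≤ 1 := by
    calc (Λ : ℝ) * P * Δ ^ 4 ≤ Λ * (2 * x) * Δ ^ 4 := by gcongr
      _ = 2 * Λ * Δ * (Δ ^ 3 * x) := by ring
      _ ≤ 1 := mul_le_one₀ b5 (by positivity) b4
  have b7 : 1 ≤ Δ * x := by
    calc (1 : ℝ) = x ^ (-1 : ℝ) * x := by rw [Real.rpow_neg_one, inv_mul_cancel₀ hx0.ne']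
      _ ≤ _ := mul_le_mul_of_nonneg_right
        ((Real.rpow_le_rpow_of_exponent_le (by linarith) (by norm_num)).trans G.d1) hx0.le
  have h4 : (1 : ℝ) ≤ 4 ^ (m + 1) := one_le_pow₀ (by norm_num)
  have h5 := mul_le_mul_of_nonneg_right h4 (zero_le_two.trans hl)
  have b8 : (2 * K : ℝ) ^ (2 * (m + 1)) * P ≤ 4 ^ (m + 1) * 2 * Real.log x * (X * K) := by
    have a1 := G.h3
    rw [show 2 * (m + 1) - 2 = 2 * m by omega] at a1
    calc (2 * K : ℝ) ^ (2 * (m + 1)) * P = 4 ^ (m + 1) * 1 * (K ^ (2 * m) * (K * P) * K) := by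
          rw [mul_pow, pow_mul 2]
          norm_num
          ring
      _ ≤ 4 ^ (m + 1) * (2 * Real.log x) * (X * K) := by
          gcongr
          linarith
      _ = _ := by ring
  have b9 : Real.log (2 * K + 1) ≤ 4 ^ (m + 1) * 2 * Real.log x := by
    have a1 : Real.log (2 * K + 1) ≤ Real.log (x ^ 2) :=
      Real.log_le_log (by positivity) (by linarith [mul_le_mul_of_nonneg_right hx5 hx0.le])
    rw [Real.log_pow] at a1
    push_cast at a1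
    linarith
  have he : Real.exp (-(3 * Real.log x ^ 2)) ≤ (x ^ 4)⁻¹ := by
    rw [← Real.exp_log (show 0 < x ^ 4 by positivity), ← Real.exp_neg, Real.log_pow]
    refine Real.exp_le_exp.2 ?_
    push_cast
    linarith [mul_le_mul_of_nonneg_right hl (zero_le_two.trans hl)]
  have hM : Lm X Δ K P * (x ^ ν) ^ 2 ≤ K * P * Δ := by
    refine root_Small hr hL (one_le_pow₀ hz1) (by positivity) (le_trans ?_ G.h2)
    rw [← pow_mul]
    exact mul_le_mul_of_nonneg_left ((pow_le_pow_right₀ hz1 (by omega)).trans hz3) (by positivity)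
  have t1 := (hF K P Λ B D X Δ _ (K * min (P * Δ) 1 / (x ^ ν) ^ 2) α hD (by exact_mod_cast b1) hX hΔ
    (by linarith [mul_le_mul_of_nonneg_right hΛ' hΔ.le]) G.p1 hΛ b6 (by linarith) b8 b9
    (by positivity) hα).trans
    (fin_LongU m hC hX (by linarith) (by linarith) hΔ (Nat.cast_nonneg B) (by linarith)
      (by positivity) (by linarith) G.h8 hE hB e1 (le_of_eq_of_le (by ring) e3) hz3)
  have t2 := (hT X Δ _ K P Λ B H D α hX hΔ (by linarith) G.k1 G.p1 hD hα hH).trans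
    (trunc_LongU hx0 (by linarith) hX (by positivity) hΔ (by linarith) (by linarith)
      (Real.exp_pos _).le hB b2 hz2 b7 he hx (by linarith) hM)
  rw [Real.rpow_neg hx0.le]
  rw [abs_le] at t1 t2 ⊢
  constructor <;> linarith [t1.1, t1.2, t2.1, t2.2]

end Pool.Agent.MP_c853c5_nt.DU
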