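import Pool.Agent.MP_c853c5_nt.DU.Defs

/-!
The main term.
-/

set_option autoImplicit false

open Finset Filter Real

namespace Pool.Agent.MP_c853c5_nt.DU

open DS

theorem main_stmt (hM : DT.MainStmt) (hL : LongStmt) (hD : DT.DiagStmt) : MainStmt := by
  intro r Λ μ hr hΛ hμ
  have hr0 : (2 : ℝ) ≤ r := by exact_mod_cast hr
  have hΛ' : (1 : ℝ) ≤ Λ := by exact_mod_cast hΛ
  obtain ⟨ν₁, h1, e1⟩ := hM r Λ μ hr hΛ hμ
  obtain ⟨ν₂, h2, e2⟩ := hL r Λ μ hr hΛ hμ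
  obtain ⟨ν, hν, n1, n2, n3⟩ : ∃ ν : ℝ, 0 < ν ∧ ν ≤ ν₁ ∧ 2 * ν ≤ ν₂ ∧ 2 * ν ≤ 1 / 800 :=
    ⟨min ν₁ (min (ν₂ / 2) (1 / 1600)), by positivity, min_le_left _ _,
      by linarith [min_le_right ν₁ (min (ν₂ / 2) (1 / 1600)), min_le_left (ν₂ / 2) (1 / 1600)],
      by linarith [min_le_right ν₁ (min (ν₂ / 2) (1 / 1600)), min_le_right (ν₂ / 2) (1 / 1600)]⟩
  refine ⟨ν, hν, ?_⟩
  filter_upwards [e1, e2, eventually_ge_atTop (1 : ℝ), E.ev_le_log 1, E.ev_const_le 2 hν,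
    E.ev_log_le (72 * (Λ : ℝ) ^ 3) 2 (show (0 : ℝ) < 1 / 800 by norm_num)]
    with x e1 e2 hx hl c1 c2 X Δ Γ K P D b c G hW hP hb hc
  have hx0 : 0 < x := by linarith
  have hΔ : 0 < Δ := (Real.rpow_pos_of_pos hx0 _).trans_le G.d1
  have hX : 0 < X := lt_of_lt_of_le (by linarith) G.x1
  have hK : (0 : ℝ) < K := by exact_mod_cast G.k1
  have hP0 : (0 : ℝ) < P := by exact_mod_cast G.p1
  have up : ∀ {s t : ℝ}, s ≤ t → x ^ s ≤ x ^ t := fun h => Real.rpow_le_rpow_of_exponent_le hx h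
  have hL1 := one_le_Lm X Δ K P
  rcases G.h1 with h | h
  · exact (e1 X Δ Γ K P D b c ⟨G.x1, G.x2, G.d1, G.d2, G.k1, G.p1, h.1, G.h2, G.h3, h.2, G.h5,
      G.h6, G.h7, G.h8, G.h9⟩ hW hP hb hc).trans
      (mul_le_mul_of_nonneg_left (up (neg_le_neg n1)) (by positivity))
  have hα : ∀ u : ℕ × ℕ, |b u.1 * c u.2| ≤ 1 := fun u => by
    rw [abs_mul]
    exact mul_le_one₀ (hb _) (abs_nonneg _) (hc _)
  have a1 := e2 X Δ K P D _ G h hP hα
  have a2 := hD X Δ K P Λ (bb x X Δ Λ K P) (hh x Δ Λ K P) D _ hX hΔ G.k1 G.p1 hP hα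
  have hc1 : 1 ≤ 3 * (Λ : ℝ) * Real.log x := by nlinarith
  have hB : (bb x X Δ Λ K P : ℝ) ≤ 3 * Λ * Real.log x * Lm X Δ K P :=
    (Nat.floor_le (by positivity)).trans
      (mul_le_mul_of_nonneg_left (le_Lm X Δ K P) (by positivity))
  have hE : 1 ≤ (K : ℝ) * P * Δ := by
    by_contra h0
    have b1 : ((K : ℝ) * P * Δ) ^ (r - 1) < 1 :=
      pow_lt_one₀ (by positivity) (not_le.1 h0) (by omega)
    have b2 : 1 ≤ Lm X Δ K P ^ r * x ^ μ :=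
      one_le_mul_of_one_le_of_one_le (one_le_pow₀ hL1) (Real.one_le_rpow hx hμ.le)
    linarith [G.h2]
  have hH : (hh x Δ Λ K P : ℝ) ≤ 2 * (3 * Λ * Real.log x) * (K * P * Δ) := by
    have : (hh x Δ Λ K P : ℝ) ≤ 3 * Λ * Real.log x * (K * P * Δ) + 1 :=
      (Nat.ceil_lt_add_one (by positivity)).le
    nlinarith
  have a3 : 4 * Λ * X * (hh x Δ Λ K P : ℝ) * (bb x X Δ Λ K P : ℝ) / (Δ * K) ≤
      X * (K * P) * x ^ (-(2 * ν)) := by
    have z0 : 0 < x ^ (1 / 800 : ℝ) := by positivity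
    have z1 : x ^ (1 / 400 : ℝ) = x ^ (1 / 800 : ℝ) * x ^ (1 / 800 : ℝ) := by
      rw [← Real.rpow_add hx0]
      norm_num
    have z2 : (x ^ (1 / 800 : ℝ))⁻¹ ≤ x ^ (-(2 * ν)) := by
      rw [← Real.rpow_neg hx0.le]
      exact up (neg_le_neg n3)
    have h5 := G.h5
    rw [z1] at h5
    generalize x ^ (1 / 800 : ℝ) = z at *
    calc _ ≤ 4 * Λ * X * (2 * (3 * Λ * Real.log x) * (K * P * Δ)) *
          (3 * Λ * Real.log x * Lm X Δ K P) / (Δ * K) := by gcongr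
      _ = X * P * (72 * Λ ^ 3 * Real.log x ^ 2) * Lm X Δ K P := by
          field_simp
          ring
      _ ≤ X * P * z * Lm X Δ K P := by gcongr
      _ = X * P * (Lm X Δ K P * (z * z)) * z⁻¹ := by field_simp
      _ ≤ X * P * K * x ^ (-(2 * ν)) := by gcongr
      _ = _ := by ring
  have a4 : X * (K * P) * x ^ (-ν₂) ≤ X * (K * P) * x ^ (-(2 * ν)) :=
    mul_le_mul_of_nonneg_left (up (neg_le_neg n2)) (by positivity)
  have a5 : 2 * x ^ (-(2 * ν)) ≤ x ^ (-ν) := by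
    have e : x ^ (-ν) = x ^ ν * x ^ (-(2 * ν)) := by
      rw [← Real.rpow_add hx0]
      congr 1
      ring
    rw [e]
    exact mul_le_mul_of_nonneg_right c1 (by positivity)
  have a6 := mul_le_mul_of_nonneg_left a5 (show 0 ≤ X * ((K : ℝ) * P) by positivity)
  change |S0 x X Δ Λ K P D b c| ≤ _
  unfold S0
  rw [abs_le] at a1 a2 ⊢
  constructor <;> linarith [a1.1, a1.2, a2.1, a2.2]

end Pool.Agent.MP_c853c5_nt.DU
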