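import Pool.Agent.MP_c853c5_nt.DU.Defs
import Pool.Agent.MP_c853c5_nt.DS.Mean
import Pool.Agent.MP_c853c5_nt.DS.Tri

/-!
The mean square and the three groups.
-/

set_option autoImplicit false

open Finset Filter Real
open scoped ComplexConjugate

namespace Pool.Agent.MP_c853c5_nt.DU

open Pool.Agent.MP_88bd62_nt.U (ex)
open DS
open S (AF Dl)

theorem mean_stmt (hS : SqStmt) (h1 : Cmp1Stmt) (h3 : Cmp3Stmt) (hV : VTrStmt) (hM : MainStmt)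
    (hL : SmallStmt) (hC : CrossStmt) (hZ : ZeroStmt) : MeanStmt := by
  intro r Λ μ hr hΛ hμ
  obtain ⟨ν₁, hν₁, eM⟩ := hM r Λ μ hr hΛ hμ
  obtain ⟨ν₂, hν₂, eL⟩ := hL r Λ μ hr hΛ hμ
  obtain ⟨ν₃, hν₃, eC⟩ := hC r Λ μ hr hΛ hμ
  obtain ⟨ν₄, hν₄, eZ⟩ := hZ r Λ μ hr hΛ hμ
  obtain ⟨ν, hν, n1, n2, n3, n4, n5⟩ : ∃ ν : ℝ, 0 < ν ∧ 2 * ν ≤ ν₁ ∧ 2 * ν ≤ ν₂ ∧ 2 * ν ≤ ν₃ ∧
      2 * ν ≤ ν₄ ∧ 2 * ν ≤ 1 / 3000 := by
    have a1 := min_le_left (min (min ν₁ ν₂) (min ν₃ ν₄)) (1 / 3000 : ℝ)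
    have a2 := min_le_right (min (min ν₁ ν₂) (min ν₃ ν₄)) (1 / 3000 : ℝ)
    have a3 := min_le_left (min ν₁ ν₂) (min ν₃ ν₄)
    have a4 := min_le_right (min ν₁ ν₂) (min ν₃ ν₄)
    have a5 : 0 < min (min (min ν₁ ν₂) (min ν₃ ν₄)) (1 / 3000 : ℝ) :=
      lt_min (lt_min (lt_min hν₁ hν₂) (lt_min hν₃ hν₄)) (by norm_num)
    refine ⟨min (min (min ν₁ ν₂) (min ν₃ ν₄)) (1 / 3000 : ℝ) / 2, by linarith, ?_, ?_, ?_, ?_, ?_⟩
    · linarith [min_le_left ν₁ ν₂]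
    · linarith [min_le_right ν₁ ν₂]
    · linarith [min_le_left ν₃ ν₄]
    · linarith [min_le_right ν₃ ν₄]
    · linarith
  refine ⟨ν, hν, ?_⟩
  filter_upwards [eM, eL, eC, eZ, h1 Λ hΛ, h3 Λ hΛ, hV Λ hΛ, eventually_ge_atTop (1 : ℝ),
    E.ev_const_le (8 * Λ * (20 * Λ + 10) + 4 * Λ) hν,
    E.ev_const_le 2 (show (0 : ℝ) < 1 / 3 - 1 / 1000 by norm_num)]
    with x eM eL eC eZ e1 e3 eV hx hc1 hc2
  intro X Δ Γ W M K P D b c hG hW hP hM1 hMN hb hc hI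
  have hx0 : 0 < x := by linarith
  have hX0 : 0 < X := by linarith [hG.x1]
  have hΔ0 : 0 < Δ := (Real.rpow_pos_of_pos hx0 _).trans_le hG.d1
  have hK' : (1 : ℝ) ≤ K := by exact_mod_cast hG.k1
  have hP' : (1 : ℝ) ≤ P := by exact_mod_cast hG.p1
  have hΛ' : (1 : ℝ) ≤ Λ := by exact_mod_cast hΛ
  have hN : (0 : ℝ) < K * P := by positivity
  have hΔΓ : Δ ≤ Γ := by
    refine hG.d2.trans (le_trans ?_ hW.1)
    have e : x ^ (-(1 / 1000) : ℝ) = x ^ (1 / 3 - 1 / 1000 : ℝ) * x ^ (-(1 / 3) : ℝ) := by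
      rw [← Real.rpow_add hx0]
      norm_num
    rw [e]
    have := mul_le_mul_of_nonneg_right hc2 (Real.rpow_nonneg hx0.le (-(1 / 3) : ℝ))
    linarith
  have hΓ0 : 0 < Γ := hΔ0.trans_le hΔΓ
  have hP4 : x ^ (1 / 400 : ℝ) ≤ P := by
    refine le_trans ?_ hG.h7
    have a1 : Δ ≤ 1 := hG.d2.trans (Real.rpow_le_one_of_one_le_of_nonpos hx (by norm_num))
    have a2 : 1 ≤ √(1 / Δ) := Real.one_le_sqrt.2 ((le_div_iff₀ hΔ0).2 (by linarith))
    have a3 : 1 ≤ Lm X Δ K P ^ 2 := one_le_pow₀ (one_le_Lm X Δ K P)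
    exact le_mul_of_one_le_left (Real.rpow_nonneg hx0.le _) (one_le_mul_of_one_le_of_one_le a3 a2)
  have s1 : Set0 x X Δ Γ K P D := ⟨hX0, hG.d1, hΔΓ, hW.2, hG.k1, hP4, hP.subset⟩
  have s2 : Set0 x X Δ Δ K P D := ⟨hX0, hG.d1, le_rfl, hΔΓ.trans hW.2, hG.k1, hP4, hP.subset⟩
  have s3 : Set0 x X Γ Γ K P D := ⟨hX0, hG.d1.trans hΔΓ, le_rfl, hW.2, hG.k1, hP4, hP.subset⟩
  obtain ⟨y, hy⟩ : ∃ y, y = x ^ (-(2 * ν)) := ⟨_, rfl⟩
  have hy0 : 0 ≤ y := hy ▸ Real.rpow_nonneg hx0.le _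
  have hyl : ∀ t : ℝ, 2 * ν ≤ t → x ^ (-t) ≤ y := fun t ht =>
    hy ▸ Real.rpow_le_rpow_of_exponent_le hx (neg_le_neg ht)
  have hXN : ∀ t : ℝ, 2 * ν ≤ t → X * (K * P) * x ^ (-t) ≤ X * (K * P) * y := fun t ht =>
    mul_le_mul_of_nonneg_left (hyl t ht) (by positivity)
  obtain ⟨b₂, hb₂, eb⟩ := exists_norm_Mean D b (a := 2) hG.k1 two_pos hb fun n hn => by
    exact_mod_cast (hP n hn).2.2.le
  obtain ⟨c₂, hc₂, ec⟩ := exists_norm_Mean (Icc P (Λ * P)) c (a := Λ) hG.p1 (by linarith) hc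
    fun n hn => by exact_mod_cast (mem_Icc.1 hn).2
  have hsc := QF_scale_Mean (zero_le_two) (Nat.cast_nonneg Λ) eb ec
  have hsum := hS X Δ Γ (Icc M (Λ * M)) D (Icc P (Λ * P)) (sq' K b) (sq' P c) hX0 hΔ0 hΓ0
    (fun h => by have := (hP 0 h).2.1; have := hG.k1; omega)
    (fun h => by have := (mem_Icc.1 h).1; have := hG.p1; omega)
  rw [QF_Th_Mean, QF_Th_Mean, QF_Th_Mean, hsc (og X Δ Δ), hsc (og X Δ Γ), hsc (og X Γ Γ)] at hsum
  have hv := eV X Δ Γ W K P D b c s1 hb hc hI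
  rw [QF_comb_Mean] at hv
  have hcoll := hsum.trans (coll_Mean hG.x2 hN hy0 (Nat.cast_nonneg Λ)
    ((eM X Δ Γ K P D b₂ c₂ hG hW hP hb₂ hc₂).trans (hXN _ n1))
    ((eL X Δ Γ K P D b₂ c₂ hG hW hP hb₂ hc₂).trans (hXN _ n2))
    ((eC X Δ Γ K P D b₂ c₂ hG hW hP hb₂ hc₂).trans (hXN _ n3))
    ((eZ X Δ Γ K P D b₂ c₂ hG hW hP hb₂ hc₂).trans (hXN _ n4))
    ((e3 X Δ Δ K P D b c s2 hb hc).trans (hXN _ (by linarith)))
    ((e3 X Δ Γ K P D b c s1 hb hc).trans (hXN _ (by linarith)))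
    ((e3 X Γ Γ K P D b c s3 hb hc).trans (hXN _ (by linarith))) hX0
    (hv.trans (add_le_add le_rfl (mul_le_mul_of_nonneg_left (hyl _ n5) (sq_nonneg _)))))
  have hterm : ∀ m ∈ Icc M (Λ * M), FF X Δ Γ D (Icc P (Λ * P)) b c m ^ 2 ≤
      8 * Λ * FL X Δ Γ D (Icc P (Λ * P)) (sq' K b) (sq' P c) m ^ 2 + 2 * ((K * P) ^ 2 * y) := by
    intro m hm
    have a1 : (m : ℝ) ≤ Λ * M := by exact_mod_cast (mem_Icc.1 hm).2
    have a2 : (m : ℝ) * (K * P) / X ≤ 4 * Λ := by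
      rw [div_le_iff₀ hX0]
      have b1 := mul_le_mul_of_nonneg_right a1 hN.le
      have b2 := mul_le_mul_of_nonneg_left hMN (Nat.cast_nonneg (α := ℝ) Λ)
      have b3 := mul_le_mul_of_nonneg_left hG.x1 (Nat.cast_nonneg (α := ℝ) Λ)
      linarith
    refine (sq_le_Mean (by positivity) a2
      (e1 X Δ Γ K P m D b c s1 (hM1.trans (mem_Icc.1 hm).1) hb hc)).trans ?_
    have a3 : (x ^ (-(1 / 2000) : ℝ)) ^ 2 ≤ y := by
      have b1 : x ^ (-(1 / 2000) : ℝ) ≤ 1 := Real.rpow_le_one_of_one_le_of_nonpos hx (by norm_num)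
      have b2 := hyl (1 / 2000) (by linarith)
      have b3 := Real.rpow_nonneg hx0.le (-(1 / 2000) : ℝ)
      nlinarith
    rw [mul_pow (K * P : ℝ)]
    have := mul_le_mul_of_nonneg_left a3 (sq_nonneg ((K : ℝ) * P))
    linarith
  have hcard : ((Icc M (Λ * M)).card : ℝ) ≤ Λ * M := by exact_mod_cast card_Icc_le hM1
  have htot := sum_le_sum hterm
  rw [sum_add_distrib, ← mul_sum, sum_const, nsmul_eq_mul] at htot
  have f1 : ((Icc M (Λ * M)).card : ℝ) * (2 * ((K * P) ^ 2 * y)) ≤ 4 * Λ * (x * (K * P) * y) := by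
    refine (mul_le_mul_of_nonneg_right hcard (by positivity)).trans ?_
    have := mul_le_mul_of_nonneg_right hMN
      (show 0 ≤ 2 * (Λ : ℝ) * (K * P * y) by positivity)
    linarith
  have f2 := mul_le_mul_of_nonneg_left hcoll (show 0 ≤ 8 * (Λ : ℝ) by positivity)
  have f3 : (8 * Λ * (20 * Λ + 10) + 4 * Λ) * y ≤ x ^ (-ν) := by
    have e : x ^ (-ν) = x ^ ν * y := by
      rw [hy, ← Real.rpow_add hx0]
      congr 1
      ring
    rw [e]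
    exact mul_le_mul_of_nonneg_right hc1 hy0
  have f4 := mul_le_mul_of_nonneg_left f3 (show 0 ≤ x * ((K : ℝ) * P) by positivity)
  linarith

theorem tri_stmt (hM : MeanStmt) (hC : ConvStmt) : TriStmt := by
  intro r Λ A C₀ μ hr hΛ hμ
  obtain ⟨ν, hν, hM⟩ := hM r Λ μ hr hΛ hμ
  obtain ⟨C, hC0, hC⟩ := hC
  obtain ⟨ε, hε, hε1, hε2⟩ : ∃ ε : ℝ, 0 < ε ∧ ε ≤ ν / 4 ∧ ε ≤ 1 / 4 :=
    ⟨min (ν / 4) (1 / 4), lt_min (by positivity) (by norm_num), min_le_left _ _, min_le_right _ _⟩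
  refine ⟨ε, hε, ?_⟩
  filter_upwards [hM, E.win, tail_Tri C hC0, eventually_ge_atTop (2 * (Λ : ℝ) ^ 2),
    eventually_gt_atTop 1, E.ev_le_log 1, E.ev_le_log (512 * Λ),
    E.ev_log_le 16 (C₀ + 2 * A) (half_pos hν), E.ev_log_le 4 A one_half_pos,
    E.ev_const_le 2 (show (0 : ℝ) < 1 / 4 by norm_num)]
    with x hM hw ht xΛ x1 l1 l2 l3 l4 l5 t t₁ M K P D a b c t1 t2 hG hD M1 hMN sa sb sc ba bb bc
      hL2 hI
  have x0 : 0 < x := by linarith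
  have g0 := hG x (by linarith) (by linarith)
  have t3 : t₁ ≤ 1 / 2 := by
    have := (Real.rpow_le_rpow_left_iff x1).1 g0.d1
    linarith
  have hN : (0 : ℝ) < K * P := by
    have h1 := g0.k1
    have h2 := g0.p1
    positivity
  have he : 0 < x ^ (-ε) := Real.rpow_pos_of_pos x0 _
  have he1 : x ^ (-ε) * x ^ ε = 1 := by rw [← Real.rpow_add x0, neg_add_cancel, Real.rpow_zero]
  have he2 : (x ^ (-ε)) ^ 2 = x ^ (-(2 * ε)) := by
    rw [← Real.rpow_mul_natCast x0.le]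
    congr 1
    push_cast
    ring
  have f1 : x ^ (-ν) * (16 * Real.log x ^ (C₀ + 2 * A)) ≤ (x ^ (-ε)) ^ 2 := by
    refine (mul_le_mul_of_nonneg_left l3 (by positivity)).trans ?_
    rw [he2, ← Real.rpow_add x0]
    exact Real.rpow_le_rpow_of_exponent_le x1.le (by linarith)
  have f2 : 4 * Real.log x ^ A ≤ (x ^ (-ε)) ^ 2 * x := by
    refine l4.trans ?_
    rw [he2, ← Real.rpow_add_one x0.ne']
    exact Real.rpow_le_rpow_of_exponent_le x1.le (by linarith)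
  have d0 : 0 < x ^ (-t₁) := Real.rpow_pos_of_pos x0 _
  have d1 : x ^ (-t₁) ≤ x ^ (-t) := Real.rpow_le_rpow_of_exponent_le x1.le (by linarith)
  have d2 : x ^ (-t) ≤ x ^ (-(1 / 3) : ℝ) := Real.rpow_le_rpow_of_exponent_le x1.le (by linarith)
  have d3 : x ^ (-t) ≤ x ^ (-(1 / 1000) : ℝ) / 2 := by
    rw [le_div_iff₀ two_pos]
    refine (mul_le_mul d2 l5 zero_le_two (by positivity)).trans ?_
    rw [← Real.rpow_add x0]
    exact Real.rpow_le_rpow_of_exponent_le x1.le (by norm_num)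
  have d4 : 0 < x ^ (-(1 / 1000) : ℝ) := Real.rpow_pos_of_pos x0 _
  have d5 : x ^ (-(1 / 1000) : ℝ) ≤ 1 := Real.rpow_le_one_of_one_le_of_nonpos x1.le (by norm_num)
  have hW : Wid x √((x ^ (-(1 / 1000) : ℝ)) ^ 2 - (x ^ (-t)) ^ 2 + (x ^ (-t₁)) ^ 2) := by
    have h1 := pow_le_pow_left₀ d0.le d1 2
    have h2 := pow_le_pow_left₀ (d0.le.trans d1) d3 2
    exact ⟨Real.le_sqrt_of_sq_le (by nlinarith), Real.sqrt_le_iff.2 ⟨d4.le, by linarith⟩⟩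
  generalize x ^ (-ε) = e at he he1 f1 f2
  have sm : ∀ f : AF, (∀ n, |f n| ≤ x ^ ε) → ∀ n, |(e • f : AF) n| ≤ 1 := fun f hf n => by
    rw [ArithmeticFunction.smul_map, smul_eq_mul, abs_mul, abs_of_pos he, ← he1]
    exact mul_le_mul_of_nonneg_left (hf n) he.le
  have sn : ∀ (f : AF) n, (e • f : AF) n ≠ 0 → f n ≠ 0 := fun f n h h0 => h (by
    rw [ArithmeticFunction.smul_map, h0, smul_zero])
  obtain ⟨g, g0', g1, g2⟩ : ∃ g : Fin 3 → AF, g 0 = e • a ∧ g 1 = b ∧ g 2 = e • c :=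
    ⟨![e • a, b, e • c], rfl, rfl, rfl⟩
  obtain ⟨s, s0, s1, s2⟩ : ∃ s : Fin 3 → Finset ℕ,
      s 0 = Icc M (Λ * M) ∧ s 1 = D ∧ s 2 = Icc P (Λ * P) := ⟨![_, _, _], rfl, rfl, rfl⟩
  have all3 : ∀ Q : Fin 3 → Prop, Q 0 → Q 1 → Q 2 → ∀ j, Q j := fun Q h0 h1 h2 j => by
    fin_cases j
    exacts [h0, h1, h2]
  have hg : ∀ j n, |g j n| ≤ 1 := all3 _ (g0' ▸ sm a ba) (g1 ▸ bb) (g2 ▸ sm c bc)
  have hcard : ∏ j, ((s j).card : ℝ) ≤ x ^ 2 := by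
    have h1 : (D.card : ℝ) ≤ K := by
      have h := card_le_card (show D ⊆ Ico K (2 * K) from fun k hk => mem_Ico.2 (hD k hk).2)
      rw [Nat.card_Ico] at h
      exact_mod_cast (by omega : D.card ≤ K)
    rw [Fin.prod_univ_three, s0, s1, s2]
    calc _ ≤ (Λ * M : ℝ) * K * (Λ * P) := by
          gcongr
          exacts [card_Tri Λ M1, card_Tri Λ g0.p1]
      _ = (Λ : ℝ) ^ 2 * (M * (K * P)) := by ring
      _ ≤ (Λ : ℝ) ^ 2 * (2 * x) := by gcongr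
      _ ≤ _ := by nlinarith
  have k1 := hw (Fin 3) t g s 1 t1 (t2.trans t3)
    (all3 _ (s0 ▸ fun h => by have := (mem_Icc.1 h).1; omega)
      (s1 ▸ fun h => Nat.not_prime_zero (hD 0 h).1)
      (s2 ▸ fun h => by have := (mem_Icc.1 h).1; have := g0.p1; omega))
    (all3 _ (s0 ▸ g0' ▸ fun n h => sa n (sn a n h)) (s1 ▸ g1 ▸ sb)
      (s2 ▸ g2 ▸ fun n h => sc n (sn c n h))) hg le_rfl hcard
  have e1 : S.sgl 1 * ∏ j, g j = (e ^ 2) • (a * b * c) := by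
    rw [E.sgl_one, one_mul, Fin.prod_univ_three, g0', g1, g2, ← one_smul ℝ b, E.af_smul_mul,
      E.af_smul_mul, one_smul, mul_one, sq]
  rw [e1, dl_smul_Tri, abs_mul, abs_of_nonneg (sq_nonneg e), Nat.cast_one, Real.log_one,
    sub_zero] at k1
  have k2 := hC (Fin 3 → ℕ) (Fintype.piFinset s) (fun n => ∏ j, g j (n j))
    (fun n => Real.log ((∏ j, n j : ℕ) : ℝ)) (Real.log x) (x ^ (-t₁)) (x ^ (-t))
    (x ^ (-(1 / 1000) : ℝ)) (e ^ 2 * x / (2 * Real.log x ^ A)) d0 d1 (by linarith) d5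
    fun v hv => by
      have l2' := Real.log_two_gt_d9
      obtain ⟨v1, v2⟩ := abs_le.1 hv
      have X1 : x / 2 ≤ Real.exp v := by
        rw [← Real.log_le_iff_le_exp (by positivity), Real.log_div x0.ne' two_ne_zero]
        linarith
      have X2 : Real.exp v ≤ 2 * x := by
        rw [← Real.le_log_iff_exp_le (by positivity), Real.log_mul two_ne_zero x0.ne']
        linarith
      have m1 := hM (Real.exp v) _ _ (e ^ 2 * ((K * P) ^ 2 / Real.log x ^ (2 * A + C₀ + 2)))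
        M K P D b (e • c : AF) (hG _ X1 X2) hW hD M1 hMN bb (sm c bc) (by
          refine le_trans (le_of_eq ?_) (mul_le_mul_of_nonneg_left hI (sq_nonneg e))
          rw [← intervalIntegral.integral_const_mul]
          refine intervalIntegral.integral_congr fun u _ => ?_
          simp only [fp_smul_Tri, norm_mul, Complex.norm_real, Real.norm_eq_abs, mul_pow, sq_abs]
          ring)
      have m2 : ∑ m ∈ Icc M (Λ * M), (e • a : AF) m ^ 2 ≤ e ^ 2 * (M * Real.log x ^ C₀) := by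
        simp only [ArithmeticFunction.smul_map, smul_eq_mul, mul_pow, ← mul_sum]
        exact mul_le_mul_of_nonneg_left hL2 (sq_nonneg e)
      have m3 := ((sum_mul_sq_le_sq_mul_sq _ _ _).trans (mul_le_mul m2 m1
        (sum_nonneg fun _ _ => sq_nonneg _) (by positivity))).trans
        (alg_Tri A C₀ (by linarith) hN (Nat.cast_nonneg M) x0.le hMN (by nlinarith) f1)
      refine le_trans (le_of_eq ?_) (abs_le_of_sq_le_sq m3 (by positivity))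
      congr 1
      refine (phi_Tri v _ _ s fun j => g j).trans ?_
      simp only [s0, s1, s2, g0', g1, g2, FF, Real.log_exp]
  have k3 := ht (x ^ (-t₁)) (x ^ (-t)) (∑ n ∈ Fintype.piFinset s, |∏ j, g j (n j)|) g0.d1
    (d0.trans_le d1) d2 (by
      refine (sum_le_card_nsmul _ _ 1 fun n _ => ?_).trans ?_
      · rw [abs_prod]
        exact prod_le_one (fun j _ => abs_nonneg _) fun j _ => hg j _
      · rwa [Fintype.card_piFinset, nsmul_eq_mul, Nat.cast_prod, mul_one])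
  have k4 : 2 ≤ e ^ 2 * x / (2 * Real.log x ^ A) := by
    rw [le_div_iff₀ (by positivity)]
    linarith
  have k5 : e ^ 2 * (x / Real.log x ^ A) = 2 * (e ^ 2 * x / (2 * Real.log x ^ A)) := by
    field_simp
  refine le_of_mul_le_mul_left (k1.trans ?_) (pow_pos he 2)
  rw [k5, E.PhiS]
  linarith

end Pool.Agent.MP_c853c5_nt.DU
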