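import Pool.Agent.MP_c853c5_nt.DU.Defs
import Pool.Agent.MP_c853c5_nt.DS.Op

set_option autoImplicit false

open Finset Filter Real MeasureTheory

namespace Pool.Agent.MP_c853c5_nt.DU

open Pool.Agent.MP_c853c5_nt.DS (mp pow_Op shift_Op)

lemma pow_OpU (D : Finset ℕ) {G : ℕ → ℕ → ℝ} (α : ℕ → ℝ) (n : ℕ) (hG : ∀ a b, G a b = G b a) :
    |∑ a ∈ D, ∑ b ∈ D, α a * α b * G a b| ^ (2 * (n + 1)) ≤
      (∑ a ∈ D, α a ^ 2) ^ (2 * (n + 1)) * ∑ a ∈ D, ∑ k ∈ D, mp D G (n + 1) a k ^ 2 := by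
  obtain ⟨v, hv⟩ : ∃ v : ℕ → ℕ → ℝ, ∀ m a, v m a = ∑ k ∈ D, mp D G m a k * α k :=
    ⟨_, fun _ _ => rfl⟩
  have v0 : ∀ a ∈ D, v 0 a = α a := fun a ha => by
    simp only [hv, mp, ite_mul, one_mul, zero_mul, sum_ite_eq, if_pos ha]
  have v1 : ∀ m a, v (m + 1) a = ∑ b ∈ D, G a b * v m b := fun m a => by
    simp only [hv, mp, sum_mul, mul_sum]
    rw [sum_comm]
    exact sum_congr rfl fun b _ => sum_congr rfl fun k _ => mul_assoc _ _ _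
  obtain ⟨s, hs⟩ : ∃ s : ℕ → ℝ, ∀ m, s m = ∑ a ∈ D, v m a ^ 2 := ⟨_, fun _ => rfl⟩
  have h0 : ∀ m, 0 ≤ s m := fun m => hs m ▸ sum_nonneg fun _ _ => sq_nonneg _
  have h1 : ∀ m, s (m + 1) ^ 2 ≤ s m * s (m + 2) := fun m => by
    have e : s (m + 1) = ∑ a ∈ D, v m a * v (m + 2) a := by
      have e1 := shift_Op (D := D) hG (v m) (v (m + 1))
      simp only [← v1] at e1
      rw [← e1, hs]
      exact sum_congr rfl fun a _ => sq _
    rw [e, hs, hs]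
    exact sum_mul_sq_le_sq_mul_sq _ _ _
  have e0 : s 0 = ∑ a ∈ D, α a ^ 2 := by
    rw [hs]
    exact sum_congr rfl fun a ha => by rw [v0 a ha]
  have h3 : (∑ a ∈ D, ∑ b ∈ D, α a * α b * G a b) ^ 2 ≤ s 0 * s 1 := by
    have e : ∑ a ∈ D, ∑ b ∈ D, α a * α b * G a b = ∑ a ∈ D, v 0 a * v 1 a :=
      sum_congr rfl fun a ha => by
        rw [v1 0 a, mul_sum, v0 a ha]
        exact sum_congr rfl fun b hb => by rw [v0 b hb]; ring
    rw [e, hs, hs]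
    exact sum_mul_sq_le_sq_mul_sq _ _ _
  have h4 : s (n + 1) ≤ (∑ a ∈ D, ∑ k ∈ D, mp D G (n + 1) a k ^ 2) * s 0 := by
    rw [hs, sum_mul, e0]
    exact sum_le_sum fun a _ => hv _ a ▸ sum_mul_sq_le_sq_mul_sq _ _ _
  generalize ∑ a ∈ D, ∑ k ∈ D, mp D G (n + 1) a k ^ 2 = M at h4
  have h6 := h0 0
  rw [← e0]
  calc |∑ a ∈ D, ∑ b ∈ D, α a * α b * G a b| ^ (2 * (n + 1))
      = ((∑ a ∈ D, ∑ b ∈ D, α a * α b * G a b) ^ 2) ^ (n + 1) := by rw [pow_mul, sq_abs]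
    _ ≤ (s 0 * s 1) ^ (n + 1) := pow_le_pow_left₀ (sq_nonneg _) h3 _
    _ = s 0 ^ (n + 1) * s 1 ^ (n + 1) := mul_pow _ _ _
    _ ≤ s 0 ^ (n + 1) * (s 0 ^ n * (M * s 0)) :=
        mul_le_mul_of_nonneg_left ((pow_Op h0 h1 n).trans
          (mul_le_mul_of_nonneg_left h4 (pow_nonneg h6 n))) (pow_nonneg h6 _)
    _ = s 0 ^ (2 * (n + 1)) * M := by ring

lemma fin_OpU {t s M l : ℝ} {k : ℕ} (hs : 0 ≤ s) (hM : 0 ≤ M) (hl : 0 < l)
    (h : t ^ (k + 1) ≤ s ^ (k + 1) * M) : t ≤ s * (l + M / l ^ k) := by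
  have h1 : 0 ≤ s * (M / l ^ k) := by positivity
  rw [mul_add]
  rcases le_or_gt t (s * l) with a | a
  · linarith
  have h2 : 0 ≤ s * l := by positivity
  have ht : 0 < t := h2.trans_lt a
  rcases hs.eq_or_lt with e | e
  · rw [← e, zero_pow (Nat.succ_ne_zero k), zero_mul] at h
    exact absurd h (not_le.2 (pow_pos ht _))
  have h3 : s ^ k * (t * l ^ k) ≤ s ^ k * (s * M) :=
    calc s ^ k * (t * l ^ k) = (s * l) ^ k * t := by rw [mul_pow]; ring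
      _ ≤ t ^ k * t := mul_le_mul_of_nonneg_right (pow_le_pow_left₀ h2 a.le k) ht.le
      _ = t ^ (k + 1) := (pow_succ t k).symm
      _ ≤ s ^ (k + 1) * M := h
      _ = s ^ k * (s * M) := by ring
  have h4 : t ≤ s * (M / l ^ k) := by
    rw [← mul_div_assoc, le_div_iff₀ (pow_pos hl k)]
    exact le_of_mul_le_mul_left h3 (pow_pos e k)
  linarith

theorem op_stmt : DU.OpStmt := by
  intro D G α r l hr hl hG
  obtain ⟨n, rfl⟩ : ∃ n, r = n + 1 := ⟨r - 1, by omega⟩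
  have h := pow_OpU D α n hG
  have e : 2 * (n + 1) = (2 * (n + 1) - 1) + 1 := by omega
  refine fin_OpU (sum_nonneg fun _ _ => sq_nonneg _)
    (sum_nonneg fun _ _ => sum_nonneg fun _ _ => sq_nonneg _) hl ?_
  rw [← e]
  exact h

end Pool.Agent.MP_c853c5_nt.DU
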