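import Pool.Agent.MP_c853c5_nt.DU.Defs

/-!
The quadratic form as an integral.
-/

set_option autoImplicit false

open Finset Filter Real MeasureTheory

namespace Pool.Agent.MP_c853c5_nt.DU

open DS (am ct rb hs)

/-- the integrand of one pair -/
noncomputable def ff_RepU (X Δ : ℝ) (B : ℕ) (u v : ℕ × ℕ) (y : ℝ) : ℝ :=
  if u.1 = v.1 then 0 else ∑ h ∈ hs B, ((u.1 : ℝ) * v.1)⁻¹ *
    (Z.gg Δ (y * u.2 / u.1 - 1) * Z.gg Δ (y * v.2 / v.1 - 1) *
      Real.cos (2 * π * (h * X * y / ((u.1 : ℝ) * v.1))))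

theorem pt_RepU (X Δ : ℝ) (B : ℕ) (D R : Finset ℕ) (α : ℕ × ℕ → ℝ) (y : ℝ) :
    ∑ a ∈ D, ∑ b ∈ D, Am Δ R α y a * Am Δ R α y b * Gm X B y a b =
      ∑ u ∈ D ×ˢ R, ∑ v ∈ D ×ˢ R, α u * α v * ff_RepU X Δ B u v y := by
  simp only [sum_product]
  refine sum_congr rfl fun a _ => ?_
  rw [sum_comm]
  refine sum_congr rfl fun b _ => ?_
  unfold Am
  rw [mul_sum, mul_sum, sum_mul_sum, sum_mul]
  refine sum_congr rfl fun p _ => ?_
  rw [sum_mul]
  refine sum_congr rfl fun q _ => ?_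
  unfold Gm ff_RepU
  dsimp only
  split_ifs
  · rw [mul_zero, mul_zero]
  · rw [mul_sum, mul_sum]
    refine sum_congr rfl fun h _ => ?_
    rw [mul_inv]
    ring

theorem one_RepU (hI : IntStmt) {X Δ : ℝ} (B : ℕ) {u v : ℕ × ℕ} (hX : 0 < X) (hΔ : 0 < Δ)
    (a : 0 < u.1) (b : 0 < v.1) (p : 0 < u.2) (q : 0 < v.2) :
    Integrable (ff_RepU X Δ B u v) ∧ X * ∫ y, ff_RepU X Δ B u v y = G2 X Δ B u v := by
  have k := fun h : ℤ => hI X Δ u.1 v.1 u.2 v.2 h hX hΔ (Nat.cast_pos.2 a) (Nat.cast_pos.2 b)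
    (Nat.cast_pos.2 p) (Nat.cast_pos.2 q)
  unfold ff_RepU G2 rb
  split_ifs
  · simp
  · refine ⟨integrable_finsetSum _ fun h _ => (k h).1.const_mul _, ?_⟩
    rw [integral_finsetSum _ fun h _ => (k h).1.const_mul _, mul_sum]
    refine sum_congr rfl fun h _ => ?_
    rw [integral_const_mul, ← mul_assoc, ← div_eq_mul_inv, (k h).2]

theorem rep_stmt (hI : IntStmt) : RepStmt := by
  intro X Δ B D R α hX hΔ hD hR
  have k := fun u (hu : u ∈ D ×ˢ R) v (hv : v ∈ D ×ˢ R) => one_RepU hI B hX hΔ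
    (hD _ (mem_product.1 hu).1) (hD _ (mem_product.1 hv).1) (hR _ (mem_product.1 hu).2)
    (hR _ (mem_product.1 hv).2)
  have k2 := fun u (hu : u ∈ D ×ˢ R) => integrable_finsetSum (D ×ˢ R) fun v hv =>
    (k u hu v hv).1.const_mul (α u * α v)
  simp only [pt_RepU]
  refine ⟨integrable_finsetSum _ k2, ?_⟩
  rw [integral_finsetSum _ k2, mul_sum]
  refine sum_congr rfl fun u hu => ?_
  rw [integral_finsetSum _ fun v hv => (k u hu v hv).1.const_mul (α u * α v), mul_sum]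
  refine sum_congr rfl fun v hv => ?_
  rw [integral_const_mul, ← (k u hu v hv).2]
  ring

end Pool.Agent.MP_c853c5_nt.DU
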