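import Pool.Agent.MP_c853c5_nt.DU.Defs
import Pool.Agent.MP_c853c5_nt.DS.Sum
import Pool.Agent.MP_c853c5_nt.DS.Path
import Pool.Agent.MP_c853c5_nt.DS.Schur
import Pool.Agent.MP_c853c5_nt.DS.Sep
import Pool.Agent.MP_c853c5_nt.DS.Pair
import Pool.Agent.MP_c853c5_nt.DS.Cyc
import Pool.Agent.MP_c853c5_nt.DS.Tree
import Pool.Agent.MP_c853c5_nt.DS.Rec

/-!
The mean value of the square of the norm of a power.
-/

set_option autoImplicit false

open Finset Filter Real MeasureTheory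
open scoped ComplexConjugate

namespace Pool.Agent.MP_c853c5_nt.DU

open Pool.Agent.MP_88bd62_nt.U (ex)
open DS (mp PrK hs fm wt vl lst paths)

lemma exp_le_TrU (s : ℝ) : Real.exp (-(π * s ^ 2)) ≤ 2 / (1 + |s|) := by
  have h1 := Real.add_one_le_exp (π * s ^ 2)
  have h2 : s ^ 2 ≤ π * s ^ 2 := le_mul_of_one_le_left (sq_nonneg s) (by linarith [pi_gt_three])
  rw [Real.exp_neg, inv_eq_one_div, div_le_div_iff₀ (Real.exp_pos _) (by positivity)]
  nlinarith [sq_abs s, sq_nonneg (|s| - 1)]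

lemma gauss_TrU {Y : ℝ} (hY : 0 < Y) (ξ : ℝ) :
    (Integrable fun y : ℝ => Real.exp (-(π * y ^ 2 / Y ^ 2)) * Real.cos (2 * π * (ξ * y))) ∧
    ∫ y : ℝ, Real.exp (-(π * y ^ 2 / Y ^ 2)) * Real.cos (2 * π * (ξ * y)) ≤
      2 * Y * fm (1 / Y) ξ := by
  have hb : 0 < π / Y ^ 2 := by positivity
  have hb' : 0 < (((π / Y ^ 2 : ℝ) : ℂ)).re := by rwa [Complex.ofReal_re]
  have e : ∀ y : ℝ, Real.exp (-(π * y ^ 2 / Y ^ 2)) * Real.cos (2 * π * (ξ * y)) =
      RCLike.re (Complex.exp (Complex.I * ((2 * π * ξ : ℝ) : ℂ) * y) *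
        Complex.exp (-((π / Y ^ 2 : ℝ) : ℂ) * y ^ 2)) := fun y => by
    rw [show Complex.I * ((2 * π * ξ : ℝ) : ℂ) * y = ((2 * π * (ξ * y) : ℝ) : ℂ) * Complex.I by
        push_cast; ring,
      show -((π / Y ^ 2 : ℝ) : ℂ) * y ^ 2 = ((-(π * y ^ 2 / Y ^ 2) : ℝ) : ℂ) by push_cast; ring,
      ← Complex.ofReal_exp, RCLike.re_to_complex, Complex.re_mul_ofReal,
      Complex.exp_ofReal_mul_I_re, mul_comm]
  have hi : Integrable fun y : ℝ => Complex.exp (Complex.I * ((2 * π * ξ : ℝ) : ℂ) * y) *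
      Complex.exp (-((π / Y ^ 2 : ℝ) : ℂ) * y ^ 2) := by
    refine (integrable_cexp_neg_mul_sq hb').bdd_mul (c := 1) (by fun_prop)
      (Eventually.of_forall fun y => le_of_eq ?_)
    rw [show Complex.I * ((2 * π * ξ : ℝ) : ℂ) * y = ((2 * π * (ξ * y) : ℝ) : ℂ) * Complex.I by
      push_cast; ring, Complex.norm_exp_ofReal_mul_I]
  simp only [e]
  refine ⟨hi.re, ?_⟩
  rw [integral_re hi, fourierIntegral_gaussian hb']
  have e1 : ((π : ℂ) / ((π / Y ^ 2 : ℝ) : ℂ)) ^ (1 / 2 : ℂ) = (Y : ℂ) := by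
    have : ((π : ℂ) / ((π / Y ^ 2 : ℝ) : ℂ)) = ((Y ^ 2 : ℝ) : ℂ) := by
      rw [← Complex.ofReal_div]
      congr 1
      field_simp
    rw [this, show (1 / 2 : ℂ) = ((1 / 2 : ℝ) : ℂ) by push_cast; rfl,
      ← Complex.ofReal_cpow (sq_nonneg Y), ← Real.sqrt_eq_rpow, Real.sqrt_sq hY.le]
  have e2 : -((2 * π * ξ : ℝ) : ℂ) ^ 2 / (4 * ((π / Y ^ 2 : ℝ) : ℂ)) =
      ((-(π * (Y * ξ) ^ 2) : ℝ) : ℂ) := by
    have : -(π * (Y * ξ) ^ 2) = -(2 * π * ξ) ^ 2 / (4 * (π / Y ^ 2)) := by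
      field_simp
      ring
    rw [this]
    push_cast
    rfl
  rw [e1, e2, ← Complex.ofReal_exp, ← Complex.ofReal_mul, RCLike.re_to_complex, Complex.ofReal_re,
    ← DS.fm_mul hY]
  refine (mul_le_mul_of_nonneg_left (exp_le_TrU _) hY.le).trans_eq ?_
  unfold fm
  ring

lemma sq_TrU {ι : Type} (L : Finset ι) (m : ℝ) (v : ι → ℝ) (hm : (m : ℂ) = ∑ l ∈ L, ex (v l)) :
    m ^ 2 = ∑ l ∈ L, ∑ l' ∈ L, Real.cos (2 * π * (v l - v l')) := by
  have h : ((m ^ 2 : ℝ) : ℂ) = (m : ℂ) * conj (m : ℂ) := by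
    rw [Complex.conj_ofReal]
    push_cast
    ring
  rw [← Complex.ofReal_re (m ^ 2), h, hm, map_sum, sum_mul_sum, Complex.re_sum]
  refine sum_congr rfl fun l _ => ?_
  rw [Complex.re_sum]
  refine sum_congr rfl fun l' _ => ?_
  rw [DS.conj_ex, ← DS.ex_add, ← sub_eq_add_neg, ex, Complex.exp_ofReal_mul_I_re]

lemma Gm_TrU (X y : ℝ) (B : ℕ) {a b : ℕ} (hab : a ≠ b) :
    (Gm X B y a b : ℂ) = ∑ h ∈ hs B, ex (h * X * y / ((a : ℝ) * b)) := by
  have h0 : ∑ h ∈ hs B, Real.sin (2 * π * (h * X * y / ((a : ℝ) * b))) = 0 := by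
    refine sum_involution (fun h _ => -h) (fun h _ => ?_) (fun h hh _ => ?_) (fun h hh => ?_)
      fun h _ => neg_neg h
    · rw [Int.cast_neg, neg_mul, neg_mul, neg_div, mul_neg, Real.sin_neg, add_neg_cancel]
    · have := (DS.mem_hs.1 hh).1
      omega
    · rw [DS.mem_hs] at hh ⊢
      exact ⟨neg_ne_zero.2 hh.1, by rw [abs_neg]; exact hh.2⟩
  simp only [DS.ex_eq]
  rw [sum_add_distrib, ← sum_mul, ← Complex.ofReal_sum, ← Complex.ofReal_sum, h0, Gm, if_neg hab,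
    Complex.ofReal_zero, zero_mul, add_zero]

lemma wt_TrU (X y : ℝ) (a : ℕ) (l : List (ℕ × ℤ)) :
    wt (fun a b h => ex (h * X * y / ((a : ℝ) * b))) a l = ex (X * (vl a l : ℝ) * y) := by
  induction l generalizing a with
  | nil => simp [wt, vl, DS.ex_zero]
  | cons e l ih =>
    have h : X * (vl a (e :: l) : ℝ) * y =
        e.2 * X * y / (a * e.1) + X * (vl e.1 l : ℝ) * y := by
      simp only [vl]
      push_cast
      ring
    rw [h, DS.ex_add]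
    simp only [wt, ih]

lemma sum_TrU {ι : Type} (s : Finset ι) (f : ι → ℝ → ℝ) (c : ι → ℝ) (E : ℝ → ℝ)
    (h : ∀ i ∈ s, (Integrable fun y => E y * f i y) ∧ ∫ y, E y * f i y ≤ c i) :
    (Integrable fun y => E y * ∑ i ∈ s, f i y) ∧ ∫ y, E y * ∑ i ∈ s, f i y ≤ ∑ i ∈ s, c i := by
  simp only [mul_sum]
  refine ⟨integrable_finsetSum s fun i hi => (h i hi).1, ?_⟩
  rw [integral_finsetSum s fun i hi => (h i hi).1]
  exact sum_le_sum fun i hi => (h i hi).2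

theorem tr_stmt : TrStmt := by
  intro r hr
  obtain ⟨n, rfl⟩ : ∃ n, r = n + 1 := ⟨r - 1, by omega⟩
  obtain ⟨C', hC⟩ := DS.cyc_stmt DS.tree_stmt DS.rec_stmt (2 * (n + 1))
  refine ⟨2 * (4 * n + 5) * (C' + 1), by positivity, ?_⟩
  intro K B D X Y w hK hB hX hY hw hθ hlog
  have hBK : B ≤ K := by
    have : 1 * B ≤ 4 ^ (2 * (n + 1) + 1) * B :=
      Nat.mul_le_mul_right _ (Nat.one_le_pow _ _ (by norm_num))
    omega
  have hDK := hK.card_le
  have hK0 : (0 : ℝ) < K := by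
    have : 0 < K := by omega
    exact_mod_cast this
  have hw0 : 0 < w := by linarith
  have key : ∀ a ∈ D, ∀ k ∈ D, (Integrable fun y : ℝ => Real.exp (-(π * y ^ 2 / Y ^ 2)) *
      mp D (Gm X B y) (n + 1) a k ^ 2) ∧
      ∫ y : ℝ, Real.exp (-(π * y ^ 2 / Y ^ 2)) * mp D (Gm X B y) (n + 1) a k ^ 2 ≤
      2 * Y * ((4 * n + 5) * w ^ 2) *
        ((((((paths D B (n + 1) a).filter fun l => lst a l = k) ×ˢ
          ((paths D B (n + 1) a).filter fun l => lst a l = k)).filter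
            fun p => vl a p.1 = vl a p.2).card : ℕ) : ℝ) := by
    intro a ha k _
    set L := (paths D B (n + 1) a).filter fun l => lst a l = k with hL
    obtain ⟨-, d2, -⟩ := DS.sep_stmt K B (n + 1) D hK a ha
    have d3 := (DS.sep_stmt K B n D hK a ha).2.2 k
    rw [← hL] at d3
    have hlc : Real.log (L.card + 1) ≤ (2 * n + 1) * w :=
      DS.log_card_Sum (d3.trans (by gcongr)) hlog
    have e : ∀ y : ℝ, mp D (Gm X B y) (n + 1) a k ^ 2 = ∑ l ∈ L, ∑ l' ∈ L,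
        Real.cos (2 * π * (X * ((vl a l : ℝ) - vl a l') * y)) := fun y => by
      rw [sq_TrU L _ (fun l => X * (vl a l : ℝ) * y) (by
        rw [DS.path_stmt D B (Gm X B y) _ (fun a _ => if_pos rfl)
          (fun a _ b _ hab => Gm_TrU X y B hab) (n + 1) a ha k]
        exact sum_congr rfl fun l _ => wt_TrU X y a l)]
      simp only [mul_sub, sub_mul]
    simp only [e]
    obtain ⟨h0, h1⟩ := sum_TrU L _ _ (fun y => Real.exp (-(π * y ^ 2 / Y ^ 2))) fun l _ =>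
      sum_TrU L _ _ (fun y => Real.exp (-(π * y ^ 2 / Y ^ 2))) fun l' _ =>
        gauss_TrU hY (X * ((vl a l : ℝ) - vl a l'))
    refine ⟨h0, h1.trans ?_⟩
    have h2 := DS.schur_stmt _ L (vl a) (1 / Y / X) (1 / (2 * K : ℝ) ^ (2 * (n + 1)))
      (by positivity) (by positivity) (fun l hl l' hl' hne => d2 l (mem_filter.1 hl).1 l'
        (mem_filter.1 hl').1 (by omega) ((mem_filter.1 hl).2.trans (mem_filter.1 hl').2.symm) hne)
    have h3 : 1 / Y / X / (1 / (2 * K : ℝ) ^ (2 * (n + 1))) ≤ w := by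
      rw [div_div_eq_mul_div, div_one, div_div, div_mul_eq_mul_div, div_le_iff₀ (by positivity),
        one_mul, mul_comm Y X]
      exact hθ
    have h4 : 1 + 2 * (1 / Y / X / (1 / (2 * K : ℝ) ^ (2 * (n + 1)))) *
        (1 + Real.log (L.card + 1)) ≤ (4 * n + 5) * w ^ 2 := by
      have b1 : 0 ≤ Real.log (L.card + 1) :=
        Real.log_nonneg (by linarith [Nat.cast_nonneg (α := ℝ) L.card])
      have b2 : 2 * (1 / Y / X / (1 / (2 * K : ℝ) ^ (2 * (n + 1)))) *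
          (1 + Real.log (L.card + 1)) ≤ 2 * w * (1 + (2 * n + 1) * w) := by gcongr
      nlinarith
    have h5 := h2.trans (mul_le_mul_of_nonneg_right h4 (Nat.cast_nonneg _))
    simp only [DS.fm_mul hX, ← mul_sum]
    rw [mul_assoc (2 * Y)]
    exact mul_le_mul_of_nonneg_left h5 (by positivity)
  obtain ⟨h0, h1⟩ := sum_TrU D _ _ (fun y => Real.exp (-(π * y ^ 2 / Y ^ 2))) fun a ha =>
    sum_TrU D _ _ (fun y => Real.exp (-(π * y ^ 2 / Y ^ 2))) (key a ha)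
  refine ⟨h0, h1.trans ?_⟩
  have hDK' : (D.card : ℝ) ≤ K := by exact_mod_cast hDK
  refine (sum_le_sum (g := fun _ => 2 * Y * ((4 * n + 5) * w ^ 2) *
    (C' * K ^ (n + 1) * B ^ (n + 1))) fun a ha => ?_).trans ?_
  · rw [← mul_sum]
    refine mul_le_mul_of_nonneg_left ?_ (by positivity)
    have c1 := (DS.fib_Sum D B (n + 1) a).trans ((DS.pair_stmt B (n + 1) D a ha).trans
      (hC K B K D hK hB hBK hDK a ha))
    rw [show 2 * (n + 1) / 2 = n + 1 by omega, show (2 * (n + 1) + 1) / 2 = n + 1 by omega] at c1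
    exact_mod_cast c1
  · rw [sum_const, nsmul_eq_mul]
    refine (mul_le_mul_of_nonneg_right hDK' (by positivity)).trans ?_
    have e : (K : ℝ) * (2 * Y * ((4 * n + 5) * w ^ 2) * (C' * K ^ (n + 1) * B ^ (n + 1))) =
        2 * (4 * n + 5) * C' * w ^ 2 * Y * (K ^ (n + 1 + 1) * B ^ (n + 1)) := by ring
    rw [e]
    gcongr
    linarith

end Pool.Agent.MP_c853c5_nt.DU
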