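import Pool.Agent.MP_c853c5_nt.DU.Defs
import Pool.Agent.MP_c853c5_nt.DS.Small

/-!
The truncation of the kernel costs little.
-/

set_option autoImplicit false

open Finset Filter Real MeasureTheory

namespace Pool.Agent.MP_c853c5_nt.DU

open DS (PrK G0 am rb dd dd_Small exp_Small exp_one_Small am_Small rb_Small cnt_Small swap_Small
  dd_pos card_Icc_le)
open DT (G1)

/-- one term of the difference -/
lemma term_TruncU {X Δ N L l : ℝ} {B H a a' : ℕ} (hX : 0 < X) (hΔ : 0 < Δ)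
    (hN : 0 < N) (hl : 0 ≤ l) (h1 : N ≤ a) (h2 : (a : ℝ) ≤ 2 * L * N) (h3 : N ≤ a')
    (h4 : (a' : ℝ) ≤ 2 * L * N) (hH : 3 * L * l * (N * Δ) ≤ H) :
    |rb X Δ Δ B a a' - if a ≠ a' ∧ a ≤ a' + H ∧ a' ≤ a + H then rb X Δ Δ B a a' else 0| ≤
      2 * B * (X / (Δ * N) * Real.exp (-(3 * l ^ 2))) +
        if a = a' then 2 * B * (X / (Δ * N)) else 0 := by
  obtain ⟨d1, d2, -⟩ := dd_Small hΔ hN h1 h2 h3 h4
  have hn : (0 : ℝ) < a := hN.trans_le h1
  have hLN : 0 < L * N := by linarith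
  have hL : 0 < L := (pos_iff_pos_of_mul_pos hLN).2 hN
  have hd : 0 < dd Δ Δ (a : ℝ) a' := dd_pos _ hΔ hn
  have hBE : 0 ≤ 2 * (B : ℝ) * (X / (Δ * N) * Real.exp (-(3 * l ^ 2))) := by positivity
  by_cases hc : a ≠ a' ∧ a ≤ a' + H ∧ a' ≤ a + H
  · rw [if_pos hc, if_neg hc.1, sub_self, abs_zero, add_zero]
    exact hBE
  · rw [if_neg hc, sub_zero]
    by_cases he : a = a'
    · rw [if_pos he]
      have := rb_Small (E := X / (Δ * N)) B hX fun h =>
        (am_Small (e₁ := 1) (e₂ := 1) h hX hΔ hN d1 (exp_one_Small hd (sq_nonneg _))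
          (exp_one_Small hd (by positivity))).trans_eq (by ring)
      linarith
    · rw [if_neg he, add_zero]
      have hfar : (H : ℝ) ≤ |(a : ℝ) - a'| := by
        by_cases hq : a ≤ a' + H
        · have : a + H ≤ a' := by
            by_contra hq'
            exact hc ⟨he, hq, by omega⟩
          have : (a : ℝ) + H ≤ a' := by exact_mod_cast this
          exact le_abs.2 (Or.inr (by linarith))
        · have : a' + H ≤ a := by omega
          have : (a' : ℝ) + H ≤ a := by exact_mod_cast this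
          exact le_abs.2 (Or.inl (by linarith))
      have hsq : (3 * l * (L * N * Δ)) ^ 2 ≤ ((a : ℝ) - a') ^ 2 := by
        rw [← sq_abs ((a : ℝ) - a')]
        refine pow_le_pow_left₀ (by positivity) (le_trans ?_ hfar) 2
        calc 3 * l * (L * N * Δ) = 3 * L * l * (N * Δ) := by ring
          _ ≤ H := hH
      exact rb_Small (E := X / (Δ * N) * Real.exp (-(3 * l ^ 2))) B hX fun h =>
        (am_Small (e₁ := Real.exp (-(3 * l ^ 2))) (e₂ := 1) h hX hΔ hN d1 (exp_Small hd d2 hsq)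
          (exp_one_Small hd (by positivity))).trans_eq (by rw [mul_one])

theorem trunc_stmt : TruncStmt := by
  intro X Δ l K P Λ B H D α hX hΔ hl hK hP1 hD hα hH
  have hKr : (0 : ℝ) < K := by exact_mod_cast hK
  have hPr : (0 : ℝ) < P := by exact_mod_cast hP1
  have hN : (0 : ℝ) < K * P := by positivity
  obtain ⟨E₁, hE₁⟩ : ∃ E : ℝ, E = 2 * B * (X / (Δ * (K * P)) * Real.exp (-(3 * l ^ 2))) :=
    ⟨_, rfl⟩
  obtain ⟨E₂, hE₂⟩ : ∃ E : ℝ, E = 2 * B * (X / (Δ * (K * P))) := ⟨_, rfl⟩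
  have hE1 : 0 ≤ E₁ := by
    rw [hE₁]
    positivity
  have hE2 : 0 ≤ E₂ := by
    rw [hE₂]
    positivity
  have hmem : ∀ k ∈ D, ∀ p ∈ Icc P (Λ * P), (K : ℝ) * P ≤ ((k * p : ℕ) : ℝ) ∧
      ((k * p : ℕ) : ℝ) ≤ 2 * Λ * (K * P) := by
    intro k hk p hp
    rw [mem_Icc] at hp
    obtain ⟨_, a1, a2⟩ := hD _ hk
    constructor
    · exact_mod_cast Nat.mul_le_mul a1 hp.1
    · have : k * p ≤ 2 * Λ * (K * P) := (Nat.mul_le_mul a2.le hp.2).trans_eq (by ring)
      exact_mod_cast this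
  have hcard : ((D ×ˢ Icc P (Λ * P)).card : ℝ) ≤ Λ * (K * P) := by
    have : (D ×ˢ Icc P (Λ * P)).card ≤ Λ * (K * P) := by
      rw [card_product]
      exact (Nat.mul_le_mul hD.card_le (card_Icc_le hP1)).trans_eq (by ring)
    exact_mod_cast this
  rw [← sum_sub_distrib]
  refine (abs_sum_le_sum_abs _ _).trans ?_
  have hterm : ∀ u ∈ D ×ˢ Icc P (Λ * P),
      |∑ v ∈ D ×ˢ Icc P (Λ * P), α u * α v * G2 X Δ B u v -
        ∑ v ∈ D ×ˢ Icc P (Λ * P), α u * α v * G1 X Δ B H u v| ≤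
      ∑ v ∈ D ×ˢ Icc P (Λ * P), (E₁ + if v.1 * u.2 = u.1 * v.2 then E₂ else 0) := by
    intro u hu
    rw [← sum_sub_distrib]
    refine (abs_sum_le_sum_abs _ _).trans (sum_le_sum fun v hv => ?_)
    rw [mem_product] at hu hv
    rw [← mul_sub, abs_mul]
    refine (mul_le_of_le_one_left (abs_nonneg _) ?_).trans ?_
    · rw [abs_mul]
      exact mul_le_one₀ (hα _) (abs_nonneg _) (hα _)
    · unfold G2 G1
      by_cases he : u.1 = v.1
      · rw [if_pos he, if_pos he, sub_self, abs_zero]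
        exact add_nonneg hE1 (ite_nonneg hE2 le_rfl)
      · rw [if_neg he, if_neg he]
        have ht := term_TruncU (B := B) (H := H) hX hΔ hN hl (hmem _ hv.1 _ hu.2).1
          (hmem _ hv.1 _ hu.2).2 (hmem _ hu.1 _ hv.2).1 (hmem _ hu.1 _ hv.2).2 hH
        rw [Nat.cast_mul v.1, Nat.cast_mul u.1, ← hE₁, ← hE₂] at ht
        exact ht
  refine (sum_le_sum hterm).trans ?_
  simp only [sum_add_distrib, sum_const, nsmul_eq_mul]
  have t1 : ((D ×ˢ Icc P (Λ * P)).card : ℝ) * (((D ×ˢ Icc P (Λ * P)).card : ℝ) * E₁) ≤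
      (Λ * (K * P)) ^ 2 * E₁ := by
    rw [← mul_assoc, ← sq]
    exact mul_le_mul_of_nonneg_right (pow_le_pow_left₀ (Nat.cast_nonneg _) hcard 2) hE1
  have t2 : ∑ u ∈ D ×ˢ Icc P (Λ * P), ∑ v ∈ D ×ˢ Icc P (Λ * P),
      (if v.1 * u.2 = u.1 * v.2 then E₂ else 0) ≤ 2 * (K * (Λ * P : ℕ)) * E₂ := by
    rw [swap_Small D (Icc P (Λ * P)) fun u v => if v.1 * u.2 = u.1 * v.2 then E₂ else 0]
    exact cnt_Small hD hK hP1 hE2
  refine (add_le_add t1 t2).trans_eq ?_
  rw [hE₁, hE₂]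
  push_cast
  field_simp

end Pool.Agent.MP_c853c5_nt.DU
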