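import Pool.Agent.MP_c853c5_nt.DU.Defs
import Pool.Agent.MP_c853c5_nt.DT.Win
import Pool.Agent.MP_c853c5_nt.REG.UG

/-!
A threshold is crossed by a small prime: the window or the new dispersion bound applies.
-/

set_option autoImplicit false

open Finset

namespace Pool.Agent.MP_c853c5_nt.DU

open Pool.Agent.MP_c853c5_nt.S Pool.Agent.MP_c853c5_nt.REG Pool.Agent.MP_c853c5_nt.Y
open Pool.Agent.MP_c853c5_nt.DT (windowV etaD etaD_pos)

/-- the system with the mixed fourth moment and the new dispersion bound -/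
def sysE : Sys := sysW.or2 ⟨E1pt, E12pt, E3pt⟩

theorem sysE_ok (h : sysW.OK) (h3 : E3D) : sysE.OK := h.or2 h3

lemma DispOK.of_old {τ η a₀ a₂ a₁ : ℝ} {r : ℕ} (h : DT.DispOK τ η r a₀ a₂ a₁) :
    DispOK τ η r a₀ a₂ a₁ :=
  ⟨Or.inl ⟨h.1, h.2.2.2.1⟩, h.2.1, h.2.2.1, h.2.2.2.2⟩

lemma E3pt.of_old {ι : Type} [Fintype ι] {τ η : ℝ} {K : ℕ} {pr : ι → Prop} {a : ι → ℝ}
    (h : DT.E3pt τ η K pr a) : E3pt τ η K pr a := by
  obtain ⟨A, i, j, r, h1, h2, h3, h4, h5, h6, h7, h8, h9⟩ := h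
  exact ⟨A, i, j, r, h1, h2, h3, h4, h5, h6, h7, DispOK.of_old h8, h9⟩

lemma E3pt.mono {ι : Type} [Fintype ι] {τ η η' : ℝ} {K K' : ℕ} {pr : ι → Prop} {a : ι → ℝ}
    (h : E3pt τ η K pr a) (hK : K ≤ K') (hη : η' ≤ η) : E3pt τ η' K' pr a := by
  obtain ⟨A, i, j, r, h1, h2, h3, h4, h5, h6, h7, ⟨d1, d2, d3, d5, d6, d7, d8, d9⟩, h9⟩ := h
  exact ⟨A, i, j, r, h1, h2.trans hK, h3, h4, h5, h6, hη.trans h7,
    ⟨d1.imp (fun d => ⟨by linarith [d.1], by linarith [d.2]⟩) fun d => by linarith, by linarith,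
      by linarith, by linarith, by linarith, by linarith, by linarith, by linarith⟩,
    h9.mono hK hη le_rfl⟩

/-- the dispersion bound with a small prime and a long last group -/
lemma e3_win {ι : Type} [Fintype ι] [d : DecidableEq ι] {τ κ s η : ℝ} {K r : ℕ} {pr : ι → Prop}
    {a : ι → ℝ} (A : Finset ι) (i : ι) (hτ : 1 / 3 ≤ τ) (hτ2 : τ ≤ 1 / 2) (hκ : 0 < κ)
    (hs : 0 < s) (hη0 : 0 < η) (hi : i ∉ A) (hpr : pr i) (h2 : 2 ≤ r) (hr : r ≤ K)
    (hp : κ ≤ a i) (hp1 : a i ≤ 1 / 10) (hK : 1 / κ ≤ K) (hη : η ≤ κ / 2) (hη' : η ≤ s / 2)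
    (hN : (Fintype.card ι : ℝ) * η ≤ 1 / 4)
    (h0 : τ - a i / 2 + s ≤ ∑ l ∈ (univ \ A).erase i, a l)
    (hD : DispOK τ η r (∑ l ∈ A, a l) (a i) (∑ l ∈ (univ \ A).erase i, a l)) :
    E3pt τ η K pr a := by
  obtain rfl : d = fun a b => Classical.propDecidable (a = b) := Subsingleton.elim _ _
  let _ : DecidableEq ι := fun a b => Classical.propDecidable (a = b)
  have : Nonempty ι := ⟨i⟩
  obtain ⟨j, hj, hj'⟩ := exists_large (a := a) ((univ \ A).erase i) hη0 (by linarith)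
  have hiA : i ∈ univ \ A := mem_sdiff.2 ⟨mem_univ _, hi⟩
  refine ⟨A, i, j, r, h2, hr, hi, (mem_sdiff.1 (mem_of_mem_erase hj)).2,
    (ne_of_mem_erase hj).symm, hpr, hj', hD, ?_⟩
  have key := (windowV hτ hτ2 hκ hp hp1 hs h0 hK hη hη').group
    (b := fun o : Option ι => o.elim τ fun l => if l ∈ A then 0 else a l)
    (fun o : Option ι => o.elim 1 fun l => if l = i then 2 else 0) fun n => le_of_eq ?_
  · rw [sum_erase_add _ _ hiA] at key
    exact key
  rw [sum_filter, Fintype.sum_option]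
  fin_cases n
  · simp only [Option.elim, Fin.zero_eta, Matrix.cons_val_zero, one_ne_zero, if_false, zero_add]
    rw [← sum_subset (subset_univ ((univ \ A).erase i)) fun l _ hl => ?_]
    · refine sum_congr rfl fun l hl => ?_
      rw [if_neg (ne_of_mem_erase hl), if_pos rfl, if_neg (mem_sdiff.1 (mem_of_mem_erase hl)).2]
    · by_cases e : l = i
      · simp [e]
      · have : l ∈ A := by
          by_contra c
          exact hl (mem_erase.2 ⟨e, mem_sdiff.2 ⟨mem_univ _, c⟩⟩)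
        simp [this]
  · simp only [Option.elim, Fin.mk_one, Matrix.cons_val_one, Matrix.cons_val_zero, if_true]
    rw [sum_eq_zero fun l _ => by split_ifs <;> simp_all, add_zero]
  · simp only [Option.elim, Fin.reduceFinMk, Matrix.cons_val, Fin.reduceEq, if_false, zero_add]
    rw [sum_eq_single i (fun l _ hl => by simp [hl]) (by simp)]
    simp [hi]

/-- the conditions on the level `ν`, the threshold `c` and the powers `q ≤ r` -/
structure UE (τ ν s δ c k : ℝ) (r q : ℕ) : Prop where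
  t : 2 / 5 ≤ τ
  s0 : 0 < s
  n : ν ≤ 1 / 10
  q2 : 2 ≤ q
  qr : q ≤ r
  c1 : τ + δ ≤ c
  c2 : c + τ + δ ≤ 1
  a2 : (2 * r - 1) * ν + s ≤ τ + δ
  a4 : 1 / 400 + 2 * s ≤ δ
  a5 : ν + s ≤ r * δ
  b1 : (r + 2) * ν + s ≤ (2 * r + 1) * (1 - 2 * τ) + (r + 1) * k
  b2 : k + s ≤ (q - 1) * (1 - 2 * τ)
  b3 : (2 * q - 1) * k + 2 * ν + 3 * τ / 2 + s ≤ 1
  b4 : (q + r + 1) * (ν + s) ≤ q * (2 * r + 1) * (1 - 2 * τ)

lemma UE.disp {τ ν s δ c k η x y u : ℝ} {r q : ℕ} (h : UE τ ν s δ c k r q) (hη : η ≤ s)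
    (hu : u ≤ ν) (hu' : 2 * (δ - s) ≤ u) (hx : τ + δ - u ≤ x) (hxy : x ≤ y)
    (h1 : x + y + u = 1) : ∃ n, 2 ≤ n ∧ n ≤ r ∧ DispOK τ η n x u y := by
  obtain ⟨t, s0, n, q2, qr, c1, c2, a2, a4, a5, b1, b2, b3, b4⟩ := h
  have hq : (2 : ℝ) ≤ q := by exact_mod_cast q2
  have hr : (q : ℝ) ≤ r := by exact_mod_cast qr
  have m1 := min_le_left (τ / 2) (τ / 6 + (y - u) / 2)
  have e1 : (2 * r - 1) * u ≤ (2 * r - 1) * ν := mul_le_mul_of_nonneg_left hu (by linarith)
  have e2 : (r - 1) * δ ≤ (r - 1) * (1 - 2 * τ) :=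
    mul_le_mul_of_nonneg_left (by linarith) (by linarith)
  have e3 : 1 * u ≤ (r - 1) * u := mul_le_mul_of_nonneg_right (by linarith) (by linarith)
  unfold DispOK
  rcases le_total τ x with g | g
  · refine ⟨r, q2.trans qr, le_rfl, ?_⟩
    rw [max_eq_left (by linarith)]
    have e4 : 1 * (y + u - τ) ≤ (r - 1) * (y + u - τ) :=
      mul_le_mul_of_nonneg_right (by linarith) (by linarith)
    have e5 : (2 * r + 1) * u ≤ (2 * r + 1) * (y + u - τ) :=
      mul_le_mul_of_nonneg_left (by linarith) (by linarith)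
    exact ⟨Or.inr (by linarith), by linarith, by linarith, by linarith, by linarith, by linarith,
      by linarith, by linarith⟩
  rw [max_eq_right (by linarith : (0 : ℝ) ≤ τ - x),
    show y + u - τ = 1 - 2 * τ + (τ - x) by linarith]
  obtain ⟨w, rfl⟩ : ∃ w, x = τ - w := ⟨τ - x, by ring⟩
  rw [sub_sub_cancel]
  rcases le_total (r * w + (r + 2) * u + η) ((2 * r + 1) * (1 - 2 * τ + w)) with f | f
  · have e4 : r * w ≤ r * (u - δ) := mul_le_mul_of_nonneg_left (by linarith) (by linarith)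
    exact ⟨r, q2.trans qr, le_rfl, Or.inr f, by linarith, by linarith, by linarith, by linarith,
      by linarith, by linarith, by linarith⟩
  have r0 : (0 : ℝ) < r + 1 := by linarith
  have e4 : (r + 2) * u ≤ (r + 2) * ν := mul_le_mul_of_nonneg_left hu (by linarith)
  have w1 : w ≤ k := le_of_mul_le_mul_left (by linarith) r0
  have e5 : (2 * q - 1) * w ≤ (2 * q - 1) * k := mul_le_mul_of_nonneg_left w1 (by linarith)
  have e6 : q * u ≤ r * u := mul_le_mul_of_nonneg_right hr (by linarith)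
  have e7 : r * (4 * s) ≤ r * (u + (1 - 2 * τ)) :=
    mul_le_mul_of_nonneg_left (by linarith) (by linarith)
  have e8 : 2 * s ≤ r * s := mul_le_mul_of_nonneg_right (by linarith) s0.le
  have w2 : 1 - 2 * τ + w + s ≤ 2 * u := le_of_mul_le_mul_left (by linarith) r0
  have e9 : (q + r + 1) * u ≤ (q + r + 1) * ν := mul_le_mul_of_nonneg_left hu (by linarith)
  have e10 : q * ((r + 1) * w) ≤ q * ((r + 2) * u + s - (2 * r + 1) * (1 - 2 * τ)) :=
    mul_le_mul_of_nonneg_left (by linarith) (by linarith)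
  have w3 : q * w + s ≤ (q - 1) * u := le_of_mul_le_mul_left (by linarith) r0
  exact ⟨q, q2, qr, Or.inl ⟨by linarith, by linarith⟩, by linarith, by linarith, by linarith,
    by linarith, by linarith, by linarith, by linarith⟩

/-- a threshold is crossed by a small prime -/
lemma crossE {ι : Type} [Fintype ι] [DecidableEq ι] {τ ν s δ c k κ N : ℝ} {r q : ℕ}
    {a : ι → ℝ} {pr : ι → Prop} (A D : Finset ι) (h : UE τ ν s δ c k r q) (hκ : 0 < κ) (hAD : Disjoint A D)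
    (hq : ∀ j ∈ D, pr j ∧ κ ≤ a j ∧ a j ≤ ν) (h0 : ∀ i, 0 ≤ a i) (h1 : ∑ i, a i = 1)
    (hA : ∑ i ∈ A, a i < c) (hc : c ≤ ∑ i ∈ A, a i + ∑ i ∈ D, a i)
    (hN : (Fintype.card ι : ℝ) ≤ N) :
    sysE.q2 τ (etaD κ s N (⌈1 / κ⌉₊ + 2 + r)) (⌈1 / κ⌉₊ + 2 + r) pr a := by
  obtain ⟨T, j, hj, h2, h3⟩ := exists_cross (J := D) (q := fun j => a j) hA
    (by rwa [sum_coe_sort D a])
  obtain ⟨hp, h4, h5⟩ := hq j j.2
  have ⟨t, s0, n, _, _, c1, c2, _, a4, _, _, _, _, _⟩ := h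
  set U := A ∪ T.map (Function.Embedding.subtype _) with hU
  have u1 : ∑ i ∈ U, a i = ∑ i ∈ A, a i + ∑ k ∈ T, a k := by
    rw [hU, sum_union, sum_map]
    · rfl
    · refine disjoint_of_subset_right (fun i hi => ?_) hAD
      obtain ⟨k, -, rfl⟩ := mem_map.1 hi
      exact k.2
  have u2 : (j : ι) ∉ U := fun h => by
    rcases mem_union.1 h with h | h
    · exact disjoint_left.1 hAD h j.2
    · obtain ⟨k, hk, e⟩ := mem_map.1 h
      exact hj (Subtype.ext e ▸ hk)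
  rw [← u1] at h2 h3
  have : Nonempty ι := ⟨j⟩
  have n0 : (0 : ℝ) < Fintype.card ι := by exact_mod_cast Fintype.card_pos
  have n1 : 0 < N := n0.trans_le hN
  set K := ⌈1 / κ⌉₊ + 2 + r with hK
  have k1 : 1 / κ ≤ K := (Nat.le_ceil _).trans (by exact_mod_cast (by omega : ⌈1 / κ⌉₊ ≤ K))
  rcases le_total (a j) (2 * (δ - s)) with g | g
  · obtain ⟨k, hk, e⟩ := cross (τ := τ) (ν := a j) (s := s) (c := c) (κ := κ) (a := a) U {(j : ι)}
      (by linarith) s0 (by linarith) (by linarith) (by linarith) hκ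
      (disjoint_singleton_right.2 u2) (fun k hk => by rw [mem_singleton.1 hk]; exact ⟨h4, le_rfl⟩)
      h1 h2 (by rwa [sum_singleton])
    exact Or.inl ((e2pt_of_eval (e.mono (by omega : _ ≤ K) le_rfl le_rfl) (by positivity)
      (by linarith) h0 h1 hp h4 hN).mono le_rfl (min_le_left _ _))
  have e0 := etaD_pos K hκ s0 n1
  have e1 : etaD κ s N K ≤ κ / 2 := (min_le_left _ _).trans ((min_le_left _ _).trans (min_le_left _ _))
  have e2 : etaD κ s N K ≤ s / 2 :=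
    (min_le_left _ _).trans ((min_le_left _ _).trans (min_le_right _ _))
  have e3 : (Fintype.card ι : ℝ) * etaD κ s N K ≤ 1 / 4 := by
    refine (mul_le_mul hN (min_le_right _ _) e0.le n1.le).trans (le_of_eq ?_)
    field_simp
  have sp : ∀ B : Finset ι, (j : ι) ∉ B →
      ∑ l ∈ (univ \ B).erase j, a l = 1 - ∑ l ∈ B, a l - a j := fun B hB => by
    have b1 := sum_erase_add (univ \ B) a (mem_sdiff.2 ⟨mem_univ _, hB⟩)
    have b2 := sum_sdiff (subset_univ B) (f := a)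
    linarith
  have fin : ∀ B : Finset ι, (j : ι) ∉ B → τ + δ - a j ≤ ∑ l ∈ B, a l →
      ∑ l ∈ B, a l ≤ 1 - ∑ l ∈ B, a l - a j → E3pt τ (etaD κ s N K) K pr a := fun B hB b1 b2 => by
    obtain ⟨m, m1, m2, m3⟩ := h.disp (η := etaD κ s N K) (by linarith) h5 g b1 b2 (by ring)
    exact e3_win (κ := κ) (s := s) B j (by linarith) (by linarith) hκ s0 e0 hB hp m1 (by omega) h4
      (by linarith) k1 e1 e2 e3 (by rw [sp B hB]; linarith) (by rwa [sp B hB])
  rcases le_total (∑ l ∈ U, a l) (1 - ∑ l ∈ U, a l - a j) with d | d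
  · exact Or.inr (fin U u2 (by linarith) d)
  · exact Or.inr (fin ((univ \ U).erase j) (notMem_erase _ _) (by rw [sp U u2]; linarith)
      (by rw [sp U u2]; linarith))

theorem crs_ue {τ ν s δ k : ℝ} {r q : ℕ}
    (h : ∀ c, τ + δ ≤ c → c + τ + δ ≤ 1 → UE τ ν s δ c k r q) (hs : 0 < s) : Crs sysE τ ν δ :=
  fun κ N hκ hN => ⟨_, etaD_pos (⌈1 / κ⌉₊ + 2 + r) hκ hs hN, ⌈1 / κ⌉₊ + 2 + r, by omega,
    fun _ _ _ _ A D c c1 c2 hA hD h0 h1 h2 h3 h4 => by
      classical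
      exact crossE (univ.filter A) (univ.filter D) (h c c1 c2) hκ
        (disjoint_filter.2 fun k _ a b => hA k b a) (fun k hk => hD k (mem_filter.1 hk).2) h0 h1
        (by rwa [sum_filter]) (by rwa [sum_filter, sum_filter]) h4⟩

end Pool.Agent.MP_c853c5_nt.DU
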