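import Pool.Agent.MP_c853c5_nt.DT.Defs

/-!
Type II information by dispersion, with a mean value in place of the exponential sums.
-/

set_option autoImplicit false

open Finset Filter Real MeasureTheory

namespace Pool.Agent.MP_c853c5_nt.DU

open S (AF Slot prI Dl)
open DS (zb mp PrK G0 Lm Wid QF bb hh S0 og FF am ct rb hs)
open DT (G1)

/-- the size conditions on the three groups: `a₀` is removed first, `a₂` is the prime -/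
def DispOK (τ η : ℝ) (r : ℕ) (a₀ a₂ a₁ : ℝ) : Prop :=
  ((a₁ + η ≤ τ + a₂ ∧
      2 * r * max 0 (τ - a₀) + min (τ / 2) (τ / 6 + (a₁ - a₂) / 2) + η ≤ a₁ - a₂) ∨
    r * max 0 (τ - a₀) + (r + 2) * a₂ + η ≤ (2 * r + 1) * (a₁ + a₂ - τ)) ∧
  r * max 0 (τ - a₀) + η ≤ (r - 1) * (a₁ + a₂ - τ) ∧
  (2 * r - 2) * a₂ + η ≤ a₀ ∧
  max 0 (τ - a₀) + 1 / 400 + η ≤ a₂ ∧ 2 * max 0 (τ - a₀) + a₂ + 1 / 400 + η ≤ a₀ ∧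
  2 * max 0 (τ - a₀) + τ / 2 + 1 / 400 + η ≤ a₁ ∧
  r * max 0 (τ - a₀) + η ≤ (r - 1) * a₂ ∧ 2 * max 0 (τ - a₀) + a₁ / 2 + 1 / 400 + η ≤ a₁

open Classical in
/-- the slots in `A` form the first group, `i` is the prime, the others form the last group -/
def E3pt {ι : Type} [Fintype ι] (τ η : ℝ) (K : ℕ) (pr : ι → Prop) (a : ι → ℝ) : Prop :=
  ∃ (A : Finset ι) (i j : ι) (r : ℕ), 2 ≤ r ∧ r ≤ K ∧ i ∉ A ∧ j ∉ A ∧ i ≠ j ∧ pr i ∧ η ≤ a j ∧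
    DispOK τ η r (∑ l ∈ A, a l) (a i) (∑ l ∈ (univ \ A).erase i, a l) ∧
    S.Eval τ η K (fun o : Option ι => o.elim τ fun l => if l ∈ A then 0 else a l)
      ((τ + ∑ l ∈ univ \ A, a l) / 2)

def E3D : Prop := ∀ (ι : Type) [Fintype ι] (τ t η : ℝ) (K A : ℕ), 1 / 3 ≤ t → t < τ →
  τ ≤ 1 / 2 → 0 < η → ∃ γ : ℝ, 0 < γ ∧ ∀ᶠ x : ℝ in atTop,
    ∀ (pr : ι → Prop) (a : ι → ℝ) (N : ι → ℕ) (g : ι → AF), (∀ i, 0 ≤ a i ∧ a i ≤ 1) →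
      E3pt τ η K pr a → (∀ i, Slot (N i) (g i)) →
      (∀ i, x ^ (a i - γ) ≤ N i ∧ (N i : ℝ) ≤ x ^ (a i + γ)) →
      (∀ i, pr i → ∃ P Q : ℕ, g i = prI P Q) →
      (∏ i, (N i : ℝ)) ≤ 2 * x →
      |Dl t x (∏ i, g i)| ≤ x / Real.log x ^ A

/-! ### the mean value -/

/-- the Fourier transform of a product of two Gaussians -/
def IntStmt : Prop := ∀ (X Δ a b p q : ℝ) (h : ℤ), 0 < X → 0 < Δ → 0 < a → 0 < b → 0 < p →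
  0 < q → (Integrable fun y : ℝ => Z.gg Δ (y * p / a - 1) * Z.gg Δ (y * q / b - 1) *
      Real.cos (2 * π * (h * X * y / (a * b)))) ∧
    X / (a * b) * ∫ y : ℝ, Z.gg Δ (y * p / a - 1) * Z.gg Δ (y * q / b - 1) *
      Real.cos (2 * π * (h * X * y / (a * b))) =
    am X Δ Δ (b * p) (a * q) h * Real.cos (2 * π * (h * ct X Δ Δ (b * p) (a * q)))

/-- a quadratic form and the trace of a power -/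
def OpStmt : Prop := ∀ (D : Finset ℕ) (G : ℕ → ℕ → ℝ) (α : ℕ → ℝ) (r : ℕ) (l : ℝ), 1 ≤ r →
  0 < l → (∀ a b, G a b = G b a) →
  |∑ a ∈ D, ∑ b ∈ D, α a * α b * G a b| ≤
    (∑ a ∈ D, α a ^ 2) * (l + (∑ a ∈ D, ∑ k ∈ D, mp D G r a k ^ 2) / l ^ (2 * r - 1))

/-- the matrix of the nonzero frequencies -/
noncomputable def Gm (X : ℝ) (B : ℕ) (y : ℝ) (a b : ℕ) : ℝ :=
  if a = b then 0 else ∑ h ∈ hs B, Real.cos (2 * π * (h * X * y / ((a : ℝ) * b)))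

def TrStmt : Prop := ∀ r : ℕ, 1 ≤ r → ∃ C : ℝ, 0 < C ∧
  ∀ (K B : ℕ) (D : Finset ℕ) (X Y w : ℝ), PrK K D → 4 ^ (2 * r + 1) * B < K → 0 < X → 0 < Y →
    1 ≤ w → (2 * K : ℝ) ^ (2 * r) ≤ w * (X * Y) → Real.log (2 * K + 1) ≤ w →
    (Integrable fun y : ℝ => Real.exp (-(π * y ^ 2 / Y ^ 2)) *
      ∑ a ∈ D, ∑ k ∈ D, mp D (Gm X B y) r a k ^ 2) ∧
    ∫ y : ℝ, Real.exp (-(π * y ^ 2 / Y ^ 2)) * ∑ a ∈ D, ∑ k ∈ D, mp D (Gm X B y) r a k ^ 2 ≤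
      C * w ^ 2 * Y * (K ^ (r + 1) * B ^ r)

/-- the weight of a prime -/
noncomputable def Am (Δ : ℝ) (R : Finset ℕ) (α : ℕ × ℕ → ℝ) (y : ℝ) (a : ℕ) : ℝ :=
  (a : ℝ)⁻¹ * ∑ p ∈ R, α (a, p) * Z.gg Δ (y * p / a - 1)

def AmStmt : Prop := ∃ C : ℝ, 0 < C ∧ ∀ (Δ : ℝ) (K P Λ a : ℕ) (α : ℕ × ℕ → ℝ), 0 < Δ →
  Δ ≤ 1 / 2 → 1 ≤ K → 1 ≤ P → 1 ≤ Λ → K ≤ a → a < 2 * K → Λ * P * Δ ^ 4 ≤ 1 →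
  (∀ u, |α u| ≤ 1) →
  (∀ y, |Am Δ (Icc P (Λ * P)) α y a| ≤
    C * Λ * (1 + P * Δ) / (K * Δ) * Real.exp (-(π * y ^ 2 / (4 * K / P) ^ 2))) ∧
  (Integrable fun y => Am Δ (Icc P (Λ * P)) α y a ^ 2) ∧
  ∫ y, Am Δ (Icc P (Λ * P)) α y a ^ 2 ≤ C * Λ ^ 2 * (1 + P * Δ) / (K * Δ)

/-- the kernel without truncation -/
noncomputable def G2 (X Δ : ℝ) (B : ℕ) (u v : ℕ × ℕ) : ℝ :=
  if u.1 = v.1 then 0 else rb X Δ Δ B ((v.1 : ℝ) * u.2) ((u.1 : ℝ) * v.2)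

/-- the form as an integral -/
def RepStmt : Prop := ∀ (X Δ : ℝ) (B : ℕ) (D R : Finset ℕ) (α : ℕ × ℕ → ℝ), 0 < X → 0 < Δ →
  (∀ a ∈ D, 0 < a) → (∀ p ∈ R, 0 < p) →
  (Integrable fun y => ∑ a ∈ D, ∑ b ∈ D, Am Δ R α y a * Am Δ R α y b * Gm X B y a b) ∧
  ∑ u ∈ D ×ˢ R, ∑ v ∈ D ×ˢ R, α u * α v * G2 X Δ B u v =
    X * ∫ y, ∑ a ∈ D, ∑ b ∈ D, Am Δ R α y a * Am Δ R α y b * Gm X B y a b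

def FormStmt : Prop := ∀ r : ℕ, 1 ≤ r → ∃ C : ℝ, 0 < C ∧
  ∀ (K P Λ B : ℕ) (D : Finset ℕ) (X Δ w l : ℝ) (α : ℕ × ℕ → ℝ), PrK K D →
    4 ^ (2 * r + 1) * B < K → 0 < X → 0 < Δ → Δ ≤ 1 / 2 → 1 ≤ P → 1 ≤ Λ → Λ * P * Δ ^ 4 ≤ 1 →
    1 ≤ w → (2 * K : ℝ) ^ (2 * r) * P ≤ w * (X * K) → Real.log (2 * K + 1) ≤ w → 0 < l →
    (∀ u, |α u| ≤ 1) →
    |∑ u ∈ D ×ˢ Icc P (Λ * P), ∑ v ∈ D ×ˢ Icc P (Λ * P), α u * α v * G2 X Δ B u v| ≤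
      C * Λ ^ 2 * X * (l * (1 + P * Δ) / Δ +
        w ^ 2 * (1 + P * Δ) ^ 2 * (K ^ (r + 1) * B ^ r) / (P * Δ ^ 2 * l ^ (2 * r - 1)))

def TruncStmt : Prop := ∀ (X Δ l : ℝ) (K P Λ B H : ℕ) (D : Finset ℕ) (α : ℕ × ℕ → ℝ), 0 < X →
  0 < Δ → 0 ≤ l → 1 ≤ K → 1 ≤ P → PrK K D → (∀ u, |α u| ≤ 1) →
  3 * Λ * l * (K * P * Δ) ≤ H →
  |∑ u ∈ D ×ˢ Icc P (Λ * P), ∑ v ∈ D ×ˢ Icc P (Λ * P), α u * α v * G2 X Δ B u v -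
      ∑ u ∈ D ×ˢ Icc P (Λ * P), ∑ v ∈ D ×ˢ Icc P (Λ * P), α u * α v * G1 X Δ B H u v| ≤
    2 * B * X / Δ * (Λ ^ 2 * (K * P) * Real.exp (-(3 * l ^ 2)) + 2 * Λ)

/-! ### the chain of statements -/

structure Geo (x μ : ℝ) (r : ℕ) (X Δ : ℝ) (K P : ℕ) : Prop where
  x1 : x / 2 ≤ X
  x2 : X ≤ 2 * x
  d1 : x ^ (-(1 / 2) : ℝ) ≤ Δ
  d2 : Δ ≤ x ^ (-(1 / 3) : ℝ)
  k1 : 1 ≤ K
  p1 : 1 ≤ P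
  h1 : (P * Δ * x ^ μ ≤ K ∧ Lm X Δ K P ^ (2 * r) * zb (1 / Δ) (P / K) * x ^ μ ≤ P / K) ∨
    Lm X Δ K P ^ r * K ^ (r + 2) * x ^ μ ≤ (K * P * Δ) ^ (2 * r + 1)
  h2 : Lm X Δ K P ^ r * x ^ μ ≤ (K * P * Δ) ^ (r - 1)
  h3 : (K : ℝ) ^ (2 * r - 2) * (K * P) ≤ X
  h5 : Lm X Δ K P * x ^ (1 / 400 : ℝ) ≤ K
  h6 : Lm X Δ K P ^ 2 * K * (K * P) * x ^ (1 / 400 : ℝ) ≤ X
  h7 : Lm X Δ K P ^ 2 * √(1 / Δ) * x ^ (1 / 400 : ℝ) ≤ P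
  h8 : Lm X Δ K P ^ r * x ^ μ ≤ K ^ (r - 1)
  h9 : Lm X Δ K P ^ 2 * √P * x ^ (1 / 400 : ℝ) ≤ P

/-- the shape of the statements below -/
def Sav (Φ : ℝ → ℝ → ℝ → ℝ → ℕ → ℕ → ℕ → Finset ℕ → (ℕ → ℝ) → (ℕ → ℝ) → ℝ) : Prop :=
  ∀ (r Λ : ℕ) (μ : ℝ), 2 ≤ r → 1 ≤ Λ → 0 < μ → ∃ ν : ℝ, 0 < ν ∧ ∀ᶠ x : ℝ in atTop,
    ∀ (X Δ Γ : ℝ) (K P : ℕ) (D : Finset ℕ) (b c : ℕ → ℝ), Geo x μ r X Δ K P → Wid x Γ →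
      PrK K D → (∀ n, |b n| ≤ 1) → (∀ n, |c n| ≤ 1) →
      |Φ x X Δ Γ Λ K P D b c| ≤ X * (K * P) * x ^ (-ν)

/-- the new case, without the terms with equal primes -/
def LongStmt : Prop := ∀ (r Λ : ℕ) (μ : ℝ), 2 ≤ r → 1 ≤ Λ → 0 < μ → ∃ ν : ℝ, 0 < ν ∧
  ∀ᶠ x : ℝ in atTop, ∀ (X Δ : ℝ) (K P : ℕ) (D : Finset ℕ) (α : ℕ × ℕ → ℝ), Geo x μ r X Δ K P →
    Lm X Δ K P ^ r * K ^ (r + 2) * x ^ μ ≤ (K * P * Δ) ^ (2 * r + 1) → PrK K D → (∀ u, |α u| ≤ 1) →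
    |∑ u ∈ D ×ˢ Icc P (Λ * P), ∑ v ∈ D ×ˢ Icc P (Λ * P),
      α u * α v * G1 X Δ (bb x X Δ Λ K P) (hh x Δ Λ K P) u v| ≤ X * (K * P) * x ^ (-ν)

def MainStmt : Prop := Sav fun x X Δ _ Λ K P D b c => S0 x X Δ Λ K P D b c

def SmallStmt : Prop := Sav fun x X Δ _ Λ K P D b c =>
  QF D (Icc P (Λ * P)) b c (og X Δ Δ) - S0 x X Δ Λ K P D b c

def ZeroStmt : Prop := Sav fun _ X _ Γ Λ K P D b c => QF D (Icc P (Λ * P)) b c (og X Γ Γ)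

def CrossStmt : Prop := Sav fun _ X Δ Γ Λ K P D b c => QF D (Icc P (Λ * P)) b c (og X Δ Γ)

/-- the mean square of the inner sum -/
def MeanStmt : Prop := ∀ (r Λ : ℕ) (μ : ℝ), 2 ≤ r → 1 ≤ Λ → 0 < μ → ∃ ν : ℝ, 0 < ν ∧
  ∀ᶠ x : ℝ in atTop, ∀ (X Δ Γ W : ℝ) (M K P : ℕ) (D : Finset ℕ) (b c : ℕ → ℝ),
    Geo x μ r X Δ K P → Wid x Γ → PrK K D → 1 ≤ M → (M : ℝ) * (K * P) ≤ 2 * x →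
    (∀ n, |b n| ≤ 1) → (∀ n, |c n| ≤ 1) →
    ∫ t in (x ^ (1 / 2000 : ℝ))..(Real.log x / Δ),
      ‖E.FP D b t‖ ^ 2 * ‖E.FP (Icc P (Λ * P)) c t‖ ^ 2 ≤ W →
    ∑ m ∈ Icc M (Λ * M), FF X Δ Γ D (Icc P (Λ * P)) b c m ^ 2 ≤
      32 * Λ * (x / (K * P)) * W + x * (K * P) * x ^ (-ν)

/-- three groups, all shorter heights -/
def TriStmt : Prop := ∀ (r Λ A C₀ : ℕ) (μ : ℝ), 2 ≤ r → 1 ≤ Λ → 0 < μ → ∃ ε : ℝ, 0 < ε ∧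
  ∀ᶠ x : ℝ in atTop, ∀ (t t₁ : ℝ) (M K P : ℕ) (D : Finset ℕ) (a b c : AF), 1 / 3 ≤ t →
    t ≤ t₁ → (∀ X : ℝ, x / 2 ≤ X → X ≤ 2 * x → Geo x μ r X (x ^ (-t₁)) K P) → PrK K D →
    1 ≤ M → (M : ℝ) * (K * P) ≤ 2 * x →
    (∀ n, a n ≠ 0 → n ∈ Icc M (Λ * M)) → (∀ n, b n ≠ 0 → n ∈ D) →
    (∀ n, c n ≠ 0 → n ∈ Icc P (Λ * P)) → (∀ n, |a n| ≤ x ^ ε) → (∀ n, |b n| ≤ 1) →
    (∀ n, |c n| ≤ x ^ ε) → ∑ m ∈ Icc M (Λ * M), a m ^ 2 ≤ M * Real.log x ^ C₀ →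
    ∫ u in (x ^ (1 / 2000 : ℝ))..(Real.log x / x ^ (-t₁)),
      ‖E.FP D b u‖ ^ 2 * ‖E.FP (Icc P (Λ * P)) c u‖ ^ 2 ≤
        (K * P) ^ 2 / Real.log x ^ (2 * A + C₀ + 2) →
    |Dl t x (a * b * c)| ≤ x / Real.log x ^ A

/-- from exponents to sizes -/
def GeoStmt : Prop := ∀ (r : ℕ) (η : ℝ), 2 ≤ r → 0 < η → ∃ μ γ : ℝ, 0 < μ ∧ 0 < γ ∧
  ∀ᶠ x : ℝ in atTop, ∀ (τ t₁ a₀ a₂ a₁ : ℝ) (M K P : ℕ), 1 / 3 ≤ t₁ → t₁ ≤ τ → τ ≤ 1 / 2 →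
    τ - η / 2 ≤ t₁ → DispOK τ η r a₀ a₂ a₁ → x ^ (a₀ - γ) ≤ M → x ^ (a₂ - γ) ≤ K →
    (K : ℝ) ≤ x ^ (a₂ + γ) → x ^ (a₁ - γ) ≤ P → (P : ℝ) ≤ x ^ (a₁ + γ) →
    (M : ℝ) * (K * P) ≤ 2 * x → ∀ X : ℝ, x / 2 ≤ X → X ≤ 2 * x → Geo x μ r X (x ^ (-t₁)) K P

end Pool.Agent.MP_c853c5_nt.DU
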