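import Pool.Agent.MP_c853c5_nt.DT.VChk
import Pool.Agent.MP_c853c5_nt.DU.Win

/-!
A checker for polytopes on which the new dispersion bound applies.
-/

set_option autoImplicit false

open Finset

namespace Pool.Agent.MP_c853c5_nt.DU

open Pool.Agent.MP_c853c5_nt.S Pool.Agent.MP_c853c5_nt.REG Pool.Agent.MP_c853c5_nt.Y
open Pool.Agent.MP_c853c5_nt.DT (eta3 eta3_pos impL impL_ok chkV chkV_ok)

open Classical in
/-- type II, or the dispersion bound with first group `A` and prime `i` -/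
def T3 {ι : Type} [Fintype ι] (τ η : ℝ) (K : ℕ) (w : ι → ℝ) (A : Finset ι) (i : ι) : Prop :=
  S.Eval τ η K w (1 / 2) ∨ ∃ r : ℕ, 2 ≤ r ∧ r ≤ K ∧
    DispOK τ η r (∑ l ∈ A, w l) (w i) (∑ l ∈ (univ \ A).erase i, w l) ∧
    S.Eval τ η K (fun o : Option ι => o.elim τ fun l => if l ∈ A then 0 else w l)
      ((τ + ∑ l ∈ univ \ A, w l) / 2)

theorem T3.q2 {ι : Type} [Fintype ι] {τ η c N : ℝ} {K : ℕ} {w : ι → ℝ} {A : Finset ι} {i : ι}
    {pr : ι → Prop} (h : T3 τ η K w A i) (hη : 0 < η) (hτ : 1 / 3 ≤ τ) (hw : ∀ j, 0 ≤ w j)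
    (hs : ∑ j, w j = 1) (hA : i ∉ A) (hi : pr i) (hc0 : 0 < c) (hc : c ≤ w i)
    (hN : (Fintype.card ι : ℝ) ≤ N) : sysE.q2 τ (eta3 η c N K) K pr w := by
  classical
  rcases h with h | ⟨r, h1, h2, h3, h4⟩
  · exact Or.inl ((e2pt_of_eval h hη hτ hw hs hi hc hN).mono le_rfl (min_le_left _ _))
  have : Nonempty ι := ⟨i⟩
  have n0 : (0 : ℝ) < Fintype.card ι := by exact_mod_cast Fintype.card_pos
  have n1 : 0 < N := n0.trans_le hN
  have e0 := eta3_pos K hη hc0 n1
  have e1 : eta3 η c N K ≤ η := (min_le_left _ _).trans (min_le_left _ _)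
  have e3 : (Fintype.card ι : ℝ) * eta3 η c N K ≤ 1 / 6 := by
    refine (mul_le_mul hN (min_le_right _ _) e0.le n1.le).trans (le_of_eq ?_)
    field_simp
  obtain ⟨d1, d2, d3, d5, d6, d7, d8, d9⟩ := h3
  have m := le_max_left 0 (τ - ∑ l ∈ A, w l)
  obtain ⟨j, hj, hj'⟩ := exists_large (a := w) _ e0 (e3.trans (le_trans (by linarith) d7))
  exact Or.inr ⟨A, i, j, r, h1, h2, hA, (mem_sdiff.1 (mem_of_mem_erase hj)).2,
    (ne_of_mem_erase hj).symm, hi, hj',
    ⟨d1.imp (fun d => ⟨by linarith [d.1], by linarith [d.2]⟩) fun d => by linarith, by linarith,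
      by linarith, by linarith, by linarith, by linarith, by linarith, by linarith⟩, h4.mono le_rfl e1 le_rfl⟩

/-- the size conditions; `d` holds the multipliers -/
def dispL (tn k r : ℕ) (P : Poly) (d : List (ℕ × ℕ × List ℕ)) : Bool :=
  impL k P 0 1 1 (2 * r * tn + 100) (r * SC + tn) (d.getD 1 (0, 0, [])) &&
  impL k P 1 (2 * r) 2 100 (2 * SC) (d.getD 2 (0, 0, [])) &&
  (impL k P (r + 1) (r + 2) 0 ((3 * r + 1) * tn + 100) ((2 * r + 1) * SC) (d.getD 3 (0, 0, [])) ||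
    (impL k P 1 0 2 100 (SC + tn) (d.getD 0 (0, 0, [])) &&
      (impL k P 2 (4 * r + 4) (4 * r) ((4 * r + 1) * tn + 200) ((4 * r + 2) * SC)
          (d.getD 3 (0, 0, [])) ||
        impL k P 3 (12 * r + 6) (12 * r) ((12 * r + 1) * tn + 600) ((12 * r + 3) * SC)
          (d.getD 3 (0, 0, []))))) &&
  impL k P 0 0 1 (tn + 2600) SC (d.getD 4 (0, 0, [])) &&
  impL k P 0 4 3 (2 * tn + 2600) (3 * SC) (d.getD 5 (0, 0, [])) &&
  impL k P 0 4 2 (5 * tn + 5200) (4 * SC) (d.getD 6 (0, 0, [])) &&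
  impL k P 0 1 r (r * tn + 100) (r * SC) (d.getD 7 (0, 0, [])) &&
  impL k P 0 4 3 (4 * tn + 5200) (4 * SC) (d.getD 8 (0, 0, []))

lemma dispL_ok {tn k r : ℕ} {P : Poly} {d : List (ℕ × ℕ × List ℕ)}
    (h : dispL tn (k + 2) r P d = true) {b : Fin (k + 2) → ℝ} (hb : ∀ j, 0 ≤ b j)
    (hP : Mem P b) (hs : ∑ j, b j = 1) (h0 : b 0 ≤ (tn : ℝ) / SC) :
    DispOK ((tn : ℝ) / SC) (1 / 10000) r (b 0) (b 1) (1 - b 0 - b 1) := by
  simp only [dispL, Bool.and_eq_true, Bool.or_eq_true] at h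
  obtain ⟨⟨⟨⟨⟨⟨⟨h2, h3⟩, h4⟩, h5⟩, h6⟩, h7⟩, h8⟩, h9⟩ := h
  have g2 := impL_ok h2 hb hP hs
  have g3 := impL_ok h3 hb hP hs
  have g4 := h4.imp (fun h => impL_ok h hb hP hs) fun h => h.imp (fun h => impL_ok h hb hP hs)
    fun h => h.imp (fun h => impL_ok h hb hP hs) fun h => impL_ok h hb hP hs
  have g5 := impL_ok h5 hb hP hs
  have g6 := impL_ok h6 hb hP hs
  have g7 := impL_ok h7 hb hP hs
  have g8 := impL_ok h8 hb hP hs
  have g9 := impL_ok h9 hb hP hs
  have e : (SC : ℝ) = 1000000 := by norm_num [SC]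
  unfold DispOK
  rw [max_eq_right (by linarith)]
  push_cast at g2 g3 g4 g5 g6 g7 g8 g9
  rw [e] at *
  refine ⟨?_, by linarith, by linarith, by linarith, by linarith, by linarith,
    by linarith, by linarith⟩
  have m1 := min_le_left ((tn : ℝ) / 1000000 / 2)
    ((tn : ℝ) / 1000000 / 6 + (1 - b 0 - b 1 - b 1) / 2)
  have m2 := min_le_right ((tn : ℝ) / 1000000 / 2)
    ((tn : ℝ) / 1000000 / 6 + (1 - b 0 - b 1 - b 1) / 2)
  rcases g4 with g | ⟨g1, g | g⟩
  · exact Or.inr (by linarith)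
  · exact Or.inl ⟨by linarith, by linarith⟩
  · exact Or.inl ⟨by linarith, by linarith⟩

/-- on the polytope the slot `0` is the first group and the slot `1` is the prime -/
def Good3 (tn k : ℕ) (P : Poly) : Prop :=
  ∀ (ι : Type) [Fintype ι] (w : ι → ℝ) (g : ι → ℕ) (i : ι), (∀ j, g j < k) → (∀ j, 0 ≤ w j) →
    ∑ j, w j = 1 → (∀ j, g j = 1 ↔ j = i) →
    (∀ x ∈ P, ∑ j, (x.1.getD (g j) 0 : ℝ) * w j ≤ (x.2 : ℝ) / SC) →
    T3 ((tn : ℝ) / SC) (1 / 10000) 64 w (univ.filter fun j => g j = 0) i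

noncomputable def chk3 (tn k r : ℕ) (P : Poly) (d : List (ℕ × ℕ × List ℕ)) (c : CT) : Bool :=
  Nat.ble 2 k && Nat.ble 2 r && Nat.ble r 64 &&
    dispL tn k r (([1], tn) :: (List.replicate k 1, SC) :: P) d &&
    chkV tn k ((List.replicate k 1, SC) :: P) c

theorem chk3_ok {tn k r : ℕ} {P : Poly} {d : List (ℕ × ℕ × List ℕ)} {c : CT}
    (h : chk3 tn k r P d c = true) : Good3 tn k P := by
  classical
  simp only [chk3, Bool.and_eq_true, Nat.ble_eq] at h
  obtain ⟨⟨⟨⟨h1, h2⟩, h3⟩, h4⟩, h5⟩ := h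
  obtain ⟨k, rfl⟩ : ∃ m, k = m + 2 := ⟨k - 2, by omega⟩
  intro ι _ w g i hg hw hs hi hP
  set b : Fin (k + 2) → ℝ := fun n => asum g w n with hb
  have key : ∀ c : List ℕ, dot c b = ∑ j, (c.getD (g j) 0 : ℝ) * w j := fun c => by
    have := sum_asum hg w fun n => (c.getD n 0 : ℝ)
    rw [dot, Fin.sum_univ_eq_sum_range (fun n => (c.getD n 0 : ℝ) * asum g w n), this]
  have b0 : ∀ j, 0 ≤ b j := fun j => asum_nonneg g hw _
  have bs : ∑ j, b j = 1 := by
    have := sum_asum hg w fun _ => 1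
    simp only [one_mul] at this
    rw [Fin.sum_univ_eq_sum_range (fun n => asum g w n), this, hs]
  have m1 : Mem ((List.replicate (k + 2) 1, SC) :: P) b := by
    refine List.forall_mem_cons.2 ⟨?_, fun x hx => by rw [key]; exact hP x hx⟩
    rw [div_self SC_pos.ne', ← bs]
    refine le_of_eq (sum_congr rfl fun j _ => ?_)
    rw [List.getD_eq_getElem _ _ (by simpa using j.2)]
    simp
  have hV := chkV_ok h5 b0 m1 bs
  have gr : ∀ n : Fin (k + 2),
      ∑ j ∈ univ.filter (fun j => (⟨g j, hg j⟩ : Fin (k + 2)) = n), w j = b n := fun n =>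
    sum_congr (filter_congr fun j _ => by simp [Fin.ext_iff]) fun _ _ => rfl
  rcases le_total ((tn : ℝ) / SC) (b 0) with e | e
  · exact Or.inl ((hV.big (by norm_num) e).group (fun j => (⟨g j, hg j⟩ : Fin (k + 2)))
      fun n => (gr n).le)
  have hD := dispL_ok h4 b0 (List.forall_mem_cons.2 ⟨by
    simpa [dot, Fin.sum_univ_succ] using e, m1⟩) bs e
  have e0 : ∑ l ∈ univ.filter (fun j => g j = 0), w l = b 0 := rfl
  have e1 : w i = b 1 := by
    have : univ.filter (fun j => g j = 1) = {i} := by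
      ext j
      simp [hi]
    show _ = asum g w 1
    rw [asum, this, sum_singleton]
  have iA : i ∈ univ \ univ.filter (fun j => g j = 0) := by simp [(hi i).2 rfl]
  have e2 : ∑ l ∈ univ \ univ.filter (fun j => g j = 0), w l = 1 - b 0 := by
    have := sum_sdiff (subset_univ (univ.filter fun j => g j = 0)) (f := w)
    linarith
  have e3 := sum_erase_add _ w iA
  refine Or.inr ⟨r, h2, h3, ?_, ?_⟩
  · convert hD using 1
    convert (show ∑ l ∈ (univ \ univ.filter fun j => g j = 0).erase i, w l = 1 - b 0 - b 1 by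
      linarith)
  have := (hV.pad (by norm_num)).group
    (b := fun o : Option ι => o.elim ((tn : ℝ) / SC) fun l => if g l = 0 then 0 else w l)
    (fun o : Option ι => o.elim 0 fun j => (⟨g j, hg j⟩ : Fin (k + 2))) fun n => le_of_eq ?_
  · rw [← e2] at this
    convert this using 4
    simp
  rw [sum_filter, Fintype.sum_option]
  refine Fin.cases ?_ (fun n => ?_) n
  · simp only [Option.elim, if_true, Fin.cons_zero]
    rw [sum_eq_zero fun l _ => by
      by_cases c : g l = 0 <;> simp [c, Fin.ext_iff], add_zero]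
  · simp only [Option.elim, Fin.cons_succ, Fin.tail, (Fin.succ_ne_zero n).symm, if_false, zero_add]
    rw [← gr, sum_filter]
    refine sum_congr rfl fun l _ => ?_
    by_cases c : g l = 0
    · rw [if_pos c, ite_self, if_neg fun h => Nat.succ_ne_zero _ (c.symm.trans (Fin.ext_iff.1 h)).symm]
    · rw [if_neg c]

end Pool.Agent.MP_c853c5_nt.DU
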