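import Pool.Agent.MP_c853c5_nt.DT.L3
import Pool.Agent.MP_c853c5_nt.DU.VChk

/-!
Good polytopes for the new dispersion bound.
-/

set_option autoImplicit false

namespace Pool.Agent.MP_c853c5_nt.X

open Pool.Agent.MP_c853c5_nt.REG

/-- the group `0` is the first group, the group `1` is the prime -/
def PP.Good3E (tn : ℕ) (x : PP) : Prop := DU.Good3 tn x.k x.rows

theorem PP.of_chk3E {tn : ℕ} {x : PP} (r : ℕ) (d : List (ℕ × ℕ × List ℕ)) (c : CT)
    (h : DU.chk3 tn x.k r x.rows d c = true) : x.Good3E tn := DU.chk3_ok h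

end Pool.Agent.MP_c853c5_nt.X
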